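import Mathlib

/-!
# Addressings of the triangular graphs `T_n` of length `⌊3 n / 2⌋`

Coordinates for `n = 2 k`: put the `n` points on a circle. For points `i ≠ v` write `i ⇒ v` if `v`
is among the `k` points following `i` (so antipodal points satisfy `i ⇒ v` and `v ⇒ i`).

* star coordinate `v` (`n` of them): `0` on the edges at `v`, `1` on the edges `{a, b}` with
  `a ⇒ v`, `b ⇒ v`;
* coordinate of the antipodal pair `{l, l + k}` (`k` of them): every edge `{a, b}` with `a ⇒ b` is
  owned by the antipodal pair of `a`; the value is `0` on the edges owned by the pair and `1` on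
  the edges that cross the diameter `{l, l + k}`.

For `n = 2 k + 1` the point `p = 2 k - 1` of the circle is replaced by two twins `p`, `q`, the star
coordinate of `p` by two coordinates.
-/

set_option autoImplicit false

namespace Pool.Agent.Results.MP_cec33a_co.ThreeHalves

/-- Two symbols of `{0, 1, *}` (`some false`, `some true`, `none`) are `0` and `1` in some order. -/
def Sep (x y : Option Bool) : Prop :=
  (x = some false ∧ y = some true) ∨ (x = some true ∧ y = some false)

instance (x y : Option Bool) : Decidable (Sep x y) := by unfold Sep; infer_instance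

/-- `a` is an addressing of length `N` of the graph `G`: the distance of `u` and `v` is the number
of coordinates in which one of the words `a u`, `a v` has `0` and the other has `1`. -/
def IsAddressing {V : Type} (G : SimpleGraph V) (N : ℕ) (a : V → Fin N → Option Bool) : Prop :=
  ∀ u v : V, G.dist u v = (Finset.univ.filter fun i : Fin N => Sep (a u i) (a v i)).card

/-- The addressing number of a graph. -/
noncomputable def addressingNumber {V : Type} (G : SimpleGraph V) : ℕ :=
  sInf {N : ℕ | ∃ a : V → Fin N → Option Bool, IsAddressing G N a}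

/-- The triangular graph `T_n`: 2-subsets of an `n`-set, adjacent if they share one element. -/
def triangular (n : ℕ) : SimpleGraph {s : Finset (Fin n) // s.card = 2} where
  Adj s t := (s.1 ∩ t.1).card = 1
  symm := ⟨fun s t h => by rwa [Finset.inter_comm]⟩
  loopless := ⟨fun s h => by
    have := s.2
    rw [Finset.inter_self] at h
    omega⟩

/-! ### Combinatorics of the circle -/

def imp (k i v : ℕ) : Prop := (i < v ∧ v ≤ i + k) ∨ (v < i ∧ v + k ≤ i)

def own (k a b : ℕ) : ℕ := if b ≤ a + k then (if a < k then a else a - k) else b - k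

def mixed (k l c d : ℕ) : Prop := (l < c ∧ c < l + k ∧ l + k < d) ∨ (c < l ∧ l < d ∧ d < l + k)

instance (k i v : ℕ) : Decidable (imp k i v) := by unfold imp; infer_instance
instance (k l c d : ℕ) : Decidable (mixed k l c d) := by unfold mixed; infer_instance

def F (k a c d : ℕ) : ℕ := if a ≠ c ∧ a ≠ d ∧ imp k c a ∧ imp k d a then 1 else 0
def X (k a b c d : ℕ) : ℕ := if mixed k (own k a b) c d then 1 else 0
def tot (k a b c d : ℕ) : ℕ :=
  F k a c d + F k b c d + F k c a b + F k d a b + X k a b c d + X k c d a b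

lemma tot_comm (k a b c d : ℕ) : tot k a b c d = tot k c d a b := by
  unfold tot; ring

lemma L1 (k a b c d : ℕ) (hab : a < b) (hbc : b < c) (hcd : c < d) (hd : d < 2 * k) :
    tot k a b c d = 2 := by
  have e1 : (a ≠ c ∧ a ≠ d ∧ imp k c a ∧ imp k d a) ↔ a + k ≤ c := by unfold imp; omega
  have e2 : (b ≠ c ∧ b ≠ d ∧ imp k c b ∧ imp k d b) ↔ b + k ≤ c := by unfold imp; omega
  have e3 : (c ≠ a ∧ c ≠ b ∧ imp k a c ∧ imp k b c) ↔ c ≤ a + k := by unfold imp; omega
  have e4 : (d ≠ a ∧ d ≠ b ∧ imp k a d ∧ imp k b d) ↔ d ≤ a + k := by unfold imp; omega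
  unfold tot F X
  simp only [e1, e2, e3, e4]
  unfold mixed own
  split_ifs <;> omega

lemma L2 (k a b c d : ℕ) (hac : a < c) (hcb : c < b) (hbd : b < d) (hd : d < 2 * k) :
    tot k a b c d = 2 := by
  have e1 : (a ≠ c ∧ a ≠ d ∧ imp k c a ∧ imp k d a) ↔ a + k ≤ c := by unfold imp; omega
  have e2 : (b ≠ c ∧ b ≠ d ∧ imp k c b ∧ imp k d b) ↔ b ≤ c + k ∧ b + k ≤ d := by
    unfold imp; omega
  have e3 : (c ≠ a ∧ c ≠ b ∧ imp k a c ∧ imp k b c) ↔ c ≤ a + k ∧ c + k ≤ b := by
    unfold imp; omega
  have e4 : (d ≠ a ∧ d ≠ b ∧ imp k a d ∧ imp k b d) ↔ d ≤ a + k := by unfold imp; omega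
  unfold tot F X
  simp only [e1, e2, e3, e4]
  unfold mixed own
  split_ifs <;> omega

lemma L3 (k a b c d : ℕ) (hac : a < c) (hcd : c < d) (hdb : d < b) (hb : b < 2 * k) :
    tot k a b c d = 2 := by
  have e1 : (a ≠ c ∧ a ≠ d ∧ imp k c a ∧ imp k d a) ↔ a + k ≤ c := by unfold imp; omega
  have e2 : (b ≠ c ∧ b ≠ d ∧ imp k c b ∧ imp k d b) ↔ b ≤ c + k := by unfold imp; omega
  have e3 : (c ≠ a ∧ c ≠ b ∧ imp k a c ∧ imp k b c) ↔ c ≤ a + k ∧ c + k ≤ b := by
    unfold imp; omega
  have e4 : (d ≠ a ∧ d ≠ b ∧ imp k a d ∧ imp k b d) ↔ d ≤ a + k ∧ d + k ≤ b := by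
    unfold imp; omega
  unfold tot F X
  simp only [e1, e2, e3, e4]
  unfold mixed own
  split_ifs <;> omega

lemma A1 (k a b d : ℕ) (hab : a < b) (hbd : b < d) (hd : d < 2 * k) :
    tot k a b a d = 1 := by
  have e1 : (a ≠ a ∧ a ≠ d ∧ imp k a a ∧ imp k d a) ↔ False := by simp
  have e2 : (b ≠ a ∧ b ≠ d ∧ imp k a b ∧ imp k d b) ↔ b ≤ a + k ∧ b + k ≤ d := by
    unfold imp; omega
  have e3 : (a ≠ a ∧ a ≠ b ∧ imp k a a ∧ imp k b a) ↔ False := by simp
  have e4 : (d ≠ a ∧ d ≠ b ∧ imp k a d ∧ imp k b d) ↔ d ≤ a + k := by unfold imp; omega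
  unfold tot F X
  simp only [e1, e2, e3, e4, if_false]
  unfold mixed own
  split_ifs <;> omega

lemma A2 (k a b d : ℕ) (hab : a < b) (hbd : b < d) (hd : d < 2 * k) :
    tot k a b b d = 1 := by
  have e1 : (a ≠ b ∧ a ≠ d ∧ imp k b a ∧ imp k d a) ↔ a + k ≤ b := by unfold imp; omega
  have e2 : (b ≠ b ∧ b ≠ d ∧ imp k b b ∧ imp k d b) ↔ False := by simp
  have e3 : (b ≠ a ∧ b ≠ b ∧ imp k a b ∧ imp k b b) ↔ False := by simp
  have e4 : (d ≠ a ∧ d ≠ b ∧ imp k a d ∧ imp k b d) ↔ d ≤ a + k := by unfold imp; omega
  unfold tot F X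
  simp only [e1, e2, e3, e4, if_false]
  unfold mixed own
  split_ifs <;> omega

lemma A3 (k a b c : ℕ) (hac : a < c) (hcb : c < b) (hb : b < 2 * k) :
    tot k a b c b = 1 := by
  have e1 : (a ≠ c ∧ a ≠ b ∧ imp k c a ∧ imp k b a) ↔ a + k ≤ c := by unfold imp; omega
  have e2 : (b ≠ c ∧ b ≠ b ∧ imp k c b ∧ imp k b b) ↔ False := by simp
  have e3 : (c ≠ a ∧ c ≠ b ∧ imp k a c ∧ imp k b c) ↔ c ≤ a + k ∧ c + k ≤ b := by
    unfold imp; omega
  have e4 : (b ≠ a ∧ b ≠ b ∧ imp k a b ∧ imp k b b) ↔ False := by simp
  unfold tot F X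
  simp only [e1, e2, e3, e4, if_false]
  unfold mixed own
  split_ifs <;> omega

/-- The distance in `T_n` of two edges of the form `{a, b}`, `a < b`, and `{c, d}`, `c < d`. -/
def D (a b c d : ℕ) : ℕ :=
  if a = c ∧ b = d then 0 else if a = c ∨ a = d ∨ b = c ∨ b = d then 1 else 2

lemma tot_eq (k a b c d : ℕ) (hab : a < b) (hb : b < 2 * k) (hcd : c < d) (hd : d < 2 * k)
    (hne : ¬ (a = c ∧ b = d)) : tot k a b c d = D a b c d := by
  unfold D
  rw [if_neg hne]
  rcases lt_trichotomy a c with h | h | h
  · rcases lt_trichotomy b c with h' | h' | h'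
    · rw [L1 k a b c d hab h' hcd hd, if_neg (by omega)]
    · subst h'
      rw [A2 k a b d hab hcd hd, if_pos (by omega)]
    · rcases lt_trichotomy b d with h'' | h'' | h''
      · rw [L2 k a b c d h h' h'' hd, if_neg (by omega)]
      · subst h''
        rw [A3 k a b c h h' hb, if_pos (by omega)]
      · rw [L3 k a b c d h hcd h'' hb, if_neg (by omega)]
  · subst h
    rcases lt_trichotomy b d with h'' | h'' | h''
    · rw [A1 k a b d hab h'' hd, if_pos (by omega)]
    · exact absurd ⟨rfl, h''⟩ hne
    · rw [tot_comm, A1 k a d b hcd h'' hb, if_pos (by omega)]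
  · rw [tot_comm]
    rcases lt_trichotomy d a with h' | h' | h'
    · rw [L1 k c d a b hcd h' hab hb, if_neg (by omega)]
    · subst h'
      rw [A2 k c d b hcd hab hb, if_pos (by omega)]
    · rcases lt_trichotomy d b with h'' | h'' | h''
      · rw [L2 k c d a b h h' h'' hb, if_neg (by omega)]
      · subst h''
        rw [A3 k c d a h h' hd, if_pos (by omega)]
      · rw [L3 k c d a b h hab h'' hd, if_neg (by omega)]

lemma own_lt (k a b : ℕ) (hab : a < b) (hb : b < 2 * k) : own k a b < k := by
  unfold own
  split_ifs <;> omega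

lemma not_mixed_own (k a b : ℕ) (hab : a < b) (hb : b < 2 * k) : ¬ mixed k (own k a b) a b := by
  unfold mixed own
  split_ifs <;> omega

/-! ### Counting separated coordinates -/

lemma star_point (v a b c d : ℕ) (A B : Prop) [Decidable A] [Decidable B] (hab : a ≠ b)
    (hcd : c ≠ d) :
    (if Sep (if v = a ∨ v = b then some false else if A then some true else none)
      (if v = c ∨ v = d then some false else if B then some true else none) then 1 else 0 : ℕ) =
    (if v = a then (if v ≠ c ∧ v ≠ d ∧ B then 1 else 0) else 0) +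
    (if v = b then (if v ≠ c ∧ v ≠ d ∧ B then 1 else 0) else 0) +
    (if v = c then (if v ≠ a ∧ v ≠ b ∧ A then 1 else 0) else 0) +
    (if v = d then (if v ≠ a ∧ v ≠ b ∧ A then 1 else 0) else 0) := by
  by_cases h1 : v = a <;> by_cases h2 : v = b <;> by_cases h3 : v = c <;> by_cases h4 : v = d <;>
    by_cases h5 : A <;> by_cases h6 : B <;> simp_all [Sep]

lemma extra_point (l p q : ℕ) (A B : Prop) [Decidable A] [Decidable B] (hA : l = p → ¬ A)
    (hB : l = q → ¬ B) :
    (if Sep (if l = p then some false else if A then some true else none)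
      (if l = q then some false else if B then some true else none) then 1 else 0 : ℕ) =
    (if l = p then (if B then 1 else 0) else 0) + (if l = q then (if A then 1 else 0) else 0) := by
  by_cases h1 : l = p <;> by_cases h2 : l = q <;>
    by_cases h5 : A <;> by_cases h6 : B <;> simp_all [Sep]

lemma star_sum (V a b c d : ℕ) (A B : ℕ → Prop) [DecidablePred A] [DecidablePred B] (hab : a ≠ b)
    (hcd : c ≠ d) :
    (∑ v ∈ Finset.range V,
      if Sep (if v = a ∨ v = b then some false else if A v then some true else none)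
      (if v = c ∨ v = d then some false else if B v then some true else none) then 1 else 0) =
    (if a < V then (if a ≠ c ∧ a ≠ d ∧ B a then 1 else 0) else 0) +
    (if b < V then (if b ≠ c ∧ b ≠ d ∧ B b then 1 else 0) else 0) +
    (if c < V then (if c ≠ a ∧ c ≠ b ∧ A c then 1 else 0) else 0) +
    (if d < V then (if d ≠ a ∧ d ≠ b ∧ A d then 1 else 0) else 0) := by
  rw [Finset.sum_congr rfl fun v _ => star_point v a b c d (A v) (B v) hab hcd]
  rw [Finset.sum_add_distrib, Finset.sum_add_distrib, Finset.sum_add_distrib,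
    Finset.sum_ite_eq', Finset.sum_ite_eq', Finset.sum_ite_eq', Finset.sum_ite_eq']
  simp only [Finset.mem_range]

lemma extra_sum (k p q : ℕ) (A B : ℕ → Prop) [DecidablePred A] [DecidablePred B] (hp : p < k)
    (hq : q < k) (hA : ¬ A p) (hB : ¬ B q) :
    (∑ l ∈ Finset.range k,
      if Sep (if l = p then some false else if A l then some true else none)
      (if l = q then some false else if B l then some true else none) then 1 else 0) =
    (if B p then 1 else 0) + (if A q then 1 else 0) := by
  rw [Finset.sum_congr rfl fun l _ => extra_point l p q (A l) (B l)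
    (fun h => by rwa [h]) (fun h => by rwa [h])]
  rw [Finset.sum_add_distrib, Finset.sum_ite_eq', Finset.sum_ite_eq',
    if_pos (Finset.mem_range.mpr hp), if_pos (Finset.mem_range.mpr hq)]

/-! ### The words -/

/-- The word of the edge `{a, b}`, `a < b < 2 k`. -/
def wE (k a b i : ℕ) : Option Bool :=
  if i < 2 * k then
    (if i = a ∨ i = b then some false else if imp k a i ∧ imp k b i then some true else none)
  else
    (if i - 2 * k = own k a b then some false
      else if mixed k (i - 2 * k) a b then some true else none)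

lemma wE_star (k a b i : ℕ) (hi : i < 2 * k) :
    wE k a b i = if i = a ∨ i = b then some false
      else if imp k a i ∧ imp k b i then some true else none := by
  unfold wE
  rw [if_pos hi]

lemma wE_extra (k a b l : ℕ) :
    wE k a b (2 * k + l) = if l = own k a b then some false
      else if mixed k l a b then some true else none := by
  unfold wE
  rw [if_neg (show ¬ 2 * k + l < 2 * k by omega), Nat.add_sub_cancel_left]

lemma sum_E (k a b c d : ℕ) (hab : a < b) (hb : b < 2 * k) (hcd : c < d) (hd : d < 2 * k) :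
    (∑ i ∈ Finset.range (3 * k), if Sep (wE k a b i) (wE k c d i) then 1 else 0) =
      D a b c d := by
  by_cases hne : a = c ∧ b = d
  · obtain ⟨rfl, rfl⟩ := hne
    unfold D
    rw [if_pos ⟨rfl, rfl⟩]
    apply Finset.sum_eq_zero
    intro i _
    rw [if_neg]
    unfold Sep
    rintro (⟨h1, h2⟩ | ⟨h1, h2⟩) <;> rw [h1] at h2 <;> simp at h2
  · rw [← tot_eq k a b c d hab hb hcd hd hne, show 3 * k = 2 * k + k by ring,
      Finset.sum_range_add]
    have h1 : (∑ i ∈ Finset.range (2 * k), if Sep (wE k a b i) (wE k c d i) then 1 else 0) =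
        F k a c d + F k b c d + F k c a b + F k d a b := by
      have := star_sum (2 * k) a b c d (fun v => imp k a v ∧ imp k b v)
        (fun v => imp k c v ∧ imp k d v) hab.ne hcd.ne
      rw [if_pos (show a < 2 * k by omega), if_pos hb, if_pos (show c < 2 * k by omega), if_pos hd] at this
      unfold F
      rw [← this]
      apply Finset.sum_congr rfl
      intro i hi
      rw [Finset.mem_range] at hi
      rw [wE_star k a b i hi, wE_star k c d i hi]
    have h2 : (∑ l ∈ Finset.range k,
        if Sep (wE k a b (2 * k + l)) (wE k c d (2 * k + l)) then 1 else 0) =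
        X k a b c d + X k c d a b := by
      have := extra_sum k (own k a b) (own k c d) (fun l => mixed k l a b)
        (fun l => mixed k l c d) (own_lt k a b hab hb) (own_lt k c d hcd hd)
        (not_mixed_own k a b hab hb) (not_mixed_own k c d hcd hd)
      unfold X
      rw [← this]
      apply Finset.sum_congr rfl
      intro l _
      rw [wE_extra, wE_extra]
    rw [h1, h2]
    unfold tot
    ring

/-- The word of the edge `{a, b}`, `a < b < 2 k + 1`; here `2 k - 1` and `2 k` are twins. -/
def wO (k a b i : ℕ) : Option Bool :=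
  if i < 2 * k - 1 then
    (if i = a ∨ i = b then some false
      else if (imp k a i ∧ imp k (min b (2 * k - 1)) i) ∨ a = 2 * k - 1 then some true else none)
  else if a = 2 * k - 1 then none
  else if i < 3 * k - 1 then
    (if i - (2 * k - 1) = own k a (min b (2 * k - 1)) then some false
      else if mixed k (i - (2 * k - 1)) a (min b (2 * k - 1)) then some true else none)
  else if i = 3 * k - 1 then
    (if b = 2 * k then some false
      else if b < 2 * k - 1 ∧ imp k a (2 * k - 1) ∧ imp k b (2 * k - 1) then some true else none)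
  else
    (if b = 2 * k - 1 then some false
      else if b = 2 * k ∨ (b < 2 * k - 1 ∧ imp k a (2 * k - 1) ∧ imp k b (2 * k - 1))
      then some true else none)

lemma not_sep_self (x : Option Bool) : ¬ Sep x x := by
  unfold Sep
  rintro (⟨h1, h2⟩ | ⟨h1, h2⟩) <;> rw [h1] at h2 <;> simp at h2

lemma sep_comm (x y : Option Bool) : Sep x y ↔ Sep y x := by
  unfold Sep
  tauto

lemma not_sep_none (x : Option Bool) : ¬ Sep none x := by
  simp [Sep]

lemma D_comm (a b c d : ℕ) : D a b c d = D c d a b := by
  unfold D
  split_ifs <;> omega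

/-- The star part of the word in the odd case. -/
lemma wO_star (k a b i : ℕ) (hi : i < 2 * k - 1) :
    wO k a b i = if i = a ∨ i = min b (2 * k - 1) then some false
      else if (imp k a i ∧ imp k (min b (2 * k - 1)) i) ∨ a = 2 * k - 1 then some true
      else none := by
  unfold wO
  rw [if_pos hi]
  have : (i = a ∨ i = b) ↔ (i = a ∨ i = min b (2 * k - 1)) := by omega
  simp only [this]

lemma wO_extra (k a b l : ℕ) (hl : l < k) (ha : a < 2 * k - 1) :
    wO k a b (2 * k - 1 + l) = if l = own k a (min b (2 * k - 1)) then some false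
      else if mixed k l a (min b (2 * k - 1)) then some true else none := by
  unfold wO
  rw [if_neg (show ¬ 2 * k - 1 + l < 2 * k - 1 by omega), if_neg (show ¬ a = 2 * k - 1 by omega),
    if_pos (show 2 * k - 1 + l < 3 * k - 1 by omega), Nat.add_sub_cancel_left]

lemma sep_iff (P Q R S : Prop) [Decidable P] [Decidable Q] [Decidable R] [Decidable S] :
    Sep (if P then some false else if Q then some true else none)
      (if R then some false else if S then some true else none) ↔
      (P ∧ ¬ R ∧ S) ∨ (R ∧ ¬ P ∧ Q) := by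
  by_cases h1 : P <;> by_cases h2 : Q <;> by_cases h3 : R <;> by_cases h4 : S <;>
    simp [Sep, h1, h2, h3, h4]

/-- The `K`-edges: both ends precede the point `2 k - 1` of the circle. -/
def KK (k a b : ℕ) : Prop := b < 2 * k - 1 ∧ imp k a (2 * k - 1) ∧ imp k b (2 * k - 1)

instance (k a b : ℕ) : Decidable (KK k a b) := by unfold KK; infer_instance

lemma wO_A (k a b : ℕ) (hk : 1 ≤ k) (ha : a < 2 * k - 1) :
    wO k a b (3 * k - 1) = (if b = 2 * k then some false
      else if KK k a b then some true else none) := by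
  unfold wO KK
  rw [if_neg (show ¬ 3 * k - 1 < 2 * k - 1 by omega), if_neg (show ¬ a = 2 * k - 1 by omega),
    if_neg (lt_irrefl _), if_pos rfl]

lemma wO_B (k a b : ℕ) (hk : 1 ≤ k) (ha : a < 2 * k - 1) :
    wO k a b (3 * k) = (if b = 2 * k - 1 then some false
      else if b = 2 * k ∨ KK k a b then some true else none) := by
  unfold wO KK
  rw [if_neg (show ¬ 3 * k < 2 * k - 1 by omega), if_neg (show ¬ a = 2 * k - 1 by omega),
    if_neg (show ¬ 3 * k < 3 * k - 1 by omega), if_neg (show ¬ 3 * k = 3 * k - 1 by omega)]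

lemma wO_twin (k a b i : ℕ) (hi : 2 * k - 1 ≤ i) (ha : a = 2 * k - 1) :
    wO k a b i = none := by
  unfold wO
  rw [if_neg (show ¬ i < 2 * k - 1 by omega), if_pos ha]

lemma split_sum (k : ℕ) (hk : 1 ≤ k) (f : ℕ → ℕ) :
    (∑ i ∈ Finset.range (3 * k + 1), f i) =
      (∑ i ∈ Finset.range (2 * k - 1), f i) + (∑ l ∈ Finset.range k, f (2 * k - 1 + l)) +
        f (3 * k - 1) + f (3 * k) := by
  obtain ⟨m, rfl⟩ : ∃ m, k = m + 1 := ⟨k - 1, by omega⟩
  rw [show 3 * (m + 1) + 1 = ((2 * (m + 1) - 1) + (m + 1)) + 1 + 1 by omega,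
    Finset.sum_range_succ, Finset.sum_range_succ, Finset.sum_range_add,
    show 2 * (m + 1) - 1 + (m + 1) + 1 = 3 * (m + 1) by omega,
    show 2 * (m + 1) - 1 + (m + 1) = 3 * (m + 1) - 1 by omega]

lemma sum_O_twin (k a b c d : ℕ) (hk : 1 ≤ k) (ha : a = 2 * k - 1) (hb : b = 2 * k)
    (hc : c < 2 * k - 1) (hcd : c < d) (hd : d < 2 * k + 1) :
    (∑ i ∈ Finset.range (3 * k + 1), if Sep (wO k a b i) (wO k c d i) then 1 else 0) =
      D a b c d := by
  rw [split_sum k hk]
  have h2 : (∑ l ∈ Finset.range k,
      if Sep (wO k a b (2 * k - 1 + l)) (wO k c d (2 * k - 1 + l)) then 1 else 0) = 0 := by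
    apply Finset.sum_eq_zero
    intro l _
    rw [wO_twin k a b _ (by omega) ha, if_neg (not_sep_none _)]
  have h3 : wO k a b (3 * k - 1) = none := wO_twin k a b _ (by omega) ha
  have h4 : wO k a b (3 * k) = none := wO_twin k a b _ (by omega) ha
  rw [h2, h3, h4, if_neg (not_sep_none _), if_neg (not_sep_none _)]
  have h1 : (∑ i ∈ Finset.range (2 * k - 1), if Sep (wO k a b i) (wO k c d i) then 1 else 0) =
      1 + (if d < 2 * k - 1 then 1 else 0) := by
    have := star_sum (2 * k - 1) a b c d (fun _ => True)
      (fun v => (imp k c v ∧ imp k (min d (2 * k - 1)) v) ∨ c = 2 * k - 1) (by omega) hcd.ne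
    rw [if_neg (show ¬ a < 2 * k - 1 by omega), if_neg (show ¬ b < 2 * k - 1 by omega),
      if_pos hc, if_pos (show c ≠ a ∧ c ≠ b ∧ True from ⟨by omega, by omega, trivial⟩)] at this
    have hdd : (if d < 2 * k - 1 then (if d ≠ a ∧ d ≠ b ∧ True then 1 else 0) else 0) =
        (if d < 2 * k - 1 then 1 else 0) := by
      by_cases h : d < 2 * k - 1
      · rw [if_pos h, if_pos h, if_pos ⟨by omega, by omega, trivial⟩]
      · rw [if_neg h, if_neg h]
    rw [hdd] at this
    rw [show 1 + (if d < 2 * k - 1 then 1 else 0) =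
      0 + 0 + 1 + (if d < 2 * k - 1 then 1 else 0) by ring, ← this]
    apply Finset.sum_congr rfl
    intro i hi
    rw [Finset.mem_range] at hi
    have e1 : wO k a b i = if i = a ∨ i = b then some false else if True then some true
        else none := by
      unfold wO
      rw [if_pos hi]
      simp only [ha, or_true]
    have e2 : wO k c d i = if i = c ∨ i = d then some false else
        if (imp k c i ∧ imp k (min d (2 * k - 1)) i) ∨ c = 2 * k - 1 then some true else none := by
      unfold wO
      rw [if_pos hi]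
    rw [e1, e2]
  rw [h1]
  unfold D
  split_ifs <;> omega

lemma sum_O_aux (k a b c d : ℕ) (hk : 1 ≤ k) (ha : a < 2 * k - 1) (hab : a < b)
    (hb : b < 2 * k + 1) (hc : c < 2 * k - 1) (hcd : c < d) (hd : d < 2 * k + 1)
    (hne : ¬ (a = c ∧ b = d)) :
    (∑ i ∈ Finset.range (3 * k + 1), if Sep (wO k a b i) (wO k c d i) then 1 else 0) =
      D a b c d := by
  rw [split_sum k hk]
  obtain ⟨b', hb'⟩ : ∃ b', b' = min b (2 * k - 1) := ⟨_, rfl⟩
  obtain ⟨d', hd'⟩ : ∃ d', d' = min d (2 * k - 1) := ⟨_, rfl⟩
  have h1 : (∑ i ∈ Finset.range (2 * k - 1), if Sep (wO k a b i) (wO k c d i) then 1 else 0) =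
      F k a c d' + (if b' < 2 * k - 1 then F k b' c d' else 0) + F k c a b' +
        (if d' < 2 * k - 1 then F k d' a b' else 0) := by
    have := star_sum (2 * k - 1) a b' c d' (fun v => imp k a v ∧ imp k b' v)
      (fun v => imp k c v ∧ imp k d' v) (by omega) (by omega)
    rw [if_pos ha, if_pos hc] at this
    unfold F
    rw [← this]
    apply Finset.sum_congr rfl
    intro i hi
    rw [Finset.mem_range] at hi
    rw [wO_star k a b i hi, wO_star k c d i hi, ← hb', ← hd']
    simp only [show ¬ a = 2 * k - 1 by omega, show ¬ c = 2 * k - 1 by omega, or_false]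
  have h2 : (∑ l ∈ Finset.range k,
      if Sep (wO k a b (2 * k - 1 + l)) (wO k c d (2 * k - 1 + l)) then 1 else 0) =
      X k a b' c d' + X k c d' a b' := by
    have := extra_sum k (own k a b') (own k c d') (fun l => mixed k l a b')
      (fun l => mixed k l c d') (own_lt k a b' (by omega) (by omega))
      (own_lt k c d' (by omega) (by omega))
      (not_mixed_own k a b' (by omega) (by omega)) (not_mixed_own k c d' (by omega) (by omega))
    unfold X
    rw [← this]
    apply Finset.sum_congr rfl
    intro l hl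
    rw [Finset.mem_range] at hl
    rw [wO_extra k a b l hl ha, wO_extra k c d l hl hc, ← hb', ← hd']
  rw [h1, h2, wO_A k a b hk ha, wO_A k c d hk hc, wO_B k a b hk ha, wO_B k c d hk hc]
  simp only [sep_iff]
  have hF : ∀ a b, a < 2 * k - 1 → b < 2 * k - 1 →
      F k (2 * k - 1) a b = if KK k a b then 1 else 0 := by
    intro a b ha hb
    unfold F KK
    have : (2 * k - 1 ≠ a ∧ 2 * k - 1 ≠ b ∧ imp k a (2 * k - 1) ∧ imp k b (2 * k - 1)) ↔
        (b < 2 * k - 1 ∧ imp k a (2 * k - 1) ∧ imp k b (2 * k - 1)) := by
      constructor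
      · rintro ⟨_, _, h, h'⟩
        exact ⟨hb, h, h'⟩
      · rintro ⟨_, h, h'⟩
        exact ⟨by omega, by omega, h, h'⟩
    simp only [this]
  by_cases hb1 : b < 2 * k - 1
  · have eb : b' = b := by omega
    by_cases hd1 : d < 2 * k - 1
    · have ed : d' = d := by omega
      rw [eb, ed, if_pos hb1, if_pos hd1]
      have ht := tot_eq k a b c d hab (by omega) hcd (by omega) hne
      unfold tot at ht
      rw [if_neg, if_neg]
      · omega
      · rintro (⟨h, _⟩ | ⟨h, _⟩) <;> omega
      · rintro (⟨h, _⟩ | ⟨h, _⟩) <;> omega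
    · have ed : d' = 2 * k - 1 := by omega
      rw [eb, ed, if_pos hb1, if_neg (lt_irrefl _)]
      have ht := tot_eq k a b c (2 * k - 1) hab (by omega) (by omega) (by omega) (by omega)
      have hD : D a b c d = D a b c (2 * k - 1) := by
        unfold D
        split_ifs <;> omega
      unfold tot at ht
      rw [hF a b ha hb1] at ht
      rw [hD, ← ht]
      by_cases hK : KK k a b
      · rcases (show d = 2 * k - 1 ∨ d = 2 * k by omega) with h | h
        · rw [if_neg, if_pos, if_pos hK]
          · omega
          · right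
            exact ⟨h, by omega, Or.inr hK⟩
          · rintro (⟨h, _⟩ | ⟨h, _⟩) <;> omega
        · rw [if_pos, if_neg, if_pos hK]
          · omega
          · rintro (⟨h, _⟩ | ⟨h, _⟩) <;> omega
          · right
            exact ⟨h, by omega, hK⟩
      · rw [if_neg, if_neg, if_neg hK]
        · omega
        · rintro (⟨h, _⟩ | ⟨h, _, h' | h'⟩)
          · omega
          · omega
          · exact hK h'
        · rintro (⟨h, _⟩ | ⟨h, _, h'⟩)
          · omega
          · exact hK h'
  · have eb : b' = 2 * k - 1 := by omega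
    by_cases hd1 : d < 2 * k - 1
    · have ed : d' = d := by omega
      rw [eb, ed, if_pos hd1, if_neg (lt_irrefl _)]
      have ht := tot_eq k a (2 * k - 1) c d (by omega) (by omega) (by omega) (by omega) (by omega)
      have hD : D a b c d = D a (2 * k - 1) c d := by
        unfold D
        split_ifs <;> omega
      unfold tot at ht
      rw [hF c d hc hd1] at ht
      rw [hD, ← ht]
      by_cases hK : KK k c d
      · rcases (show b = 2 * k - 1 ∨ b = 2 * k by omega) with h | h
        · rw [if_neg, if_pos, if_pos hK]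
          · omega
          · left
            exact ⟨h, by omega, Or.inr hK⟩
          · rintro (⟨h, _⟩ | ⟨h, _⟩) <;> omega
        · rw [if_pos, if_neg, if_pos hK]
          · omega
          · rintro (⟨h, _⟩ | ⟨h, _⟩) <;> omega
          · left
            exact ⟨h, by omega, hK⟩
      · rw [if_neg, if_neg, if_neg hK]
        · omega
        · rintro (⟨h, _, h' | h'⟩ | ⟨h, _⟩)
          · omega
          · exact hK h'
          · omega
        · rintro (⟨h, _, h'⟩ | ⟨h, _⟩)
          · exact hK h'
          · omega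
    · have ed : d' = 2 * k - 1 := by omega
      have hKe : ¬ KK k a b := fun h => hb1 h.1
      have hKf : ¬ KK k c d := fun h => hd1 h.1
      rw [eb, ed, if_neg (lt_irrefl _), if_neg (lt_irrefl _)]
      simp only [hKe, hKf, or_false, and_false, if_false]
      have hFz : ∀ x y, F k x y (2 * k - 1) = F k x y (2 * k - 1) := fun _ _ => rfl
      by_cases hac : a = c
      · subst hac
        have hbd : b ≠ d := fun h => hne ⟨rfl, h⟩
        have e1 : F k a a (2 * k - 1) = 0 := by
          unfold F
          rw [if_neg]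
          rintro ⟨h, _⟩
          exact h rfl
        have e2 : X k a (2 * k - 1) a (2 * k - 1) = 0 := by
          unfold X
          rw [if_neg (not_mixed_own k a (2 * k - 1) (by omega) (by omega))]
        rw [e1, e2]
        unfold D
        split_ifs <;> omega
      · have ht := tot_eq k a (2 * k - 1) c (2 * k - 1) (by omega) (by omega) (by omega)
          (by omega) (by omega)
        unfold tot at ht
        have e1 : ∀ x, F k (2 * k - 1) x (2 * k - 1) = 0 := by
          intro x
          unfold F
          rw [if_neg]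
          rintro ⟨_, h, _⟩
          exact h rfl
        rw [e1, e1] at ht
        have hD : D a (2 * k - 1) c (2 * k - 1) = 1 := by
          unfold D
          split_ifs <;> omega
        rw [hD] at ht
        unfold D
        split_ifs <;> omega

lemma sum_O (k a b c d : ℕ) (hk : 1 ≤ k) (hab : a < b)
    (hb : b < 2 * k + 1) (hcd : c < d) (hd : d < 2 * k + 1) :
    (∑ i ∈ Finset.range (3 * k + 1), if Sep (wO k a b i) (wO k c d i) then 1 else 0) =
      D a b c d := by
  by_cases hne : a = c ∧ b = d
  · obtain ⟨rfl, rfl⟩ := hne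
    unfold D
    rw [if_pos ⟨rfl, rfl⟩]
    apply Finset.sum_eq_zero
    intro i _
    rw [if_neg (not_sep_self _)]
  · by_cases ha : a = 2 * k - 1
    · exact sum_O_twin k a b c d hk ha (by omega) (by omega) hcd hd
    · by_cases hc : c = 2 * k - 1
      · rw [D_comm]
        rw [← sum_O_twin k c d a b hk hc (by omega) (by omega) hab hb]
        apply Finset.sum_congr rfl
        intro i _
        simp only [sep_comm (wO k a b i)]
      · exact sum_O_aux k a b c d hk (by omega) hab hb (by omega) hcd hd hne

/-! ### The graph -/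

/-- The larger element of a set of natural numbers below `n`. -/
def hi {n : ℕ} (s : Finset (Fin n)) : ℕ := s.sup fun x => x.val

/-- The smaller element of a 2-subset. -/
def lo {n : ℕ} (s : Finset (Fin n)) : ℕ := (∑ x ∈ s, x.val) - hi s

lemma exists_pair {n : ℕ} (s : {s : Finset (Fin n) // s.card = 2}) :
    ∃ a b : Fin n, a.val < b.val ∧ s.1 = {a, b} ∧ lo s.1 = a.val ∧ hi s.1 = b.val := by
  obtain ⟨x, y, hxy, hs⟩ := Finset.card_eq_two.mp s.2
  have key : ∀ a b : Fin n, a.val < b.val → s.1 = {a, b} →
      lo s.1 = a.val ∧ hi s.1 = b.val := by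
    intro a b hab h
    have hne : a ≠ b := fun h => by rw [h] at hab; exact lt_irrefl _ hab
    have h1 : hi s.1 = b.val := by
      unfold hi
      rw [h, Finset.sup_insert, Finset.sup_singleton]
      exact max_eq_right hab.le
    refine ⟨?_, h1⟩
    unfold lo
    rw [h1, h, Finset.sum_pair hne]
    omega
  rcases lt_trichotomy x.val y.val with h | h | h
  · exact ⟨x, y, h, hs, key x y h hs⟩
  · exact absurd (Fin.ext h) hxy
  · have hs' : s.1 = {y, x} := by rw [hs, Finset.pair_comm]
    exact ⟨y, x, h, hs', key y x h hs'⟩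

lemma adj_iff {n : ℕ} (s t : {s : Finset (Fin n) // s.card = 2}) :
    (triangular n).Adj s t ↔ (s.1 ∩ t.1).card = 1 := Iff.rfl

lemma inter_pair_card {n : ℕ} (a b c d : Fin n) (hab : a ≠ b) (hcd : c ≠ d) :
    (({a, b} : Finset (Fin n)) ∩ {c, d}).card =
      (if a = c ∨ a = d then 1 else 0) + (if b = c ∨ b = d then 1 else 0) := by
  have h : (({a, b} : Finset (Fin n)) ∩ {c, d}) =
      ({a, b} : Finset (Fin n)).filter (fun x => x = c ∨ x = d) := by
    ext x
    simp [Finset.mem_inter, Finset.mem_filter]
  rw [h, Finset.card_filter, Finset.sum_pair hab]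

lemma dist_eq {n : ℕ} (s t : {s : Finset (Fin n) // s.card = 2}) :
    (triangular n).dist s t = D (lo s.1) (hi s.1) (lo t.1) (hi t.1) := by
  obtain ⟨a, b, hab, hs, h1, h2⟩ := exists_pair s
  obtain ⟨c, d, hcd, ht, h3, h4⟩ := exists_pair t
  have hab' : a ≠ b := fun h => by rw [h] at hab; exact lt_irrefl _ hab
  have hcd' : c ≠ d := fun h => by rw [h] at hcd; exact lt_irrefl _ hcd
  rw [h1, h2, h3, h4]
  by_cases hst : s = t
  · subst hst
    have e1 : a.val = c.val := by rw [← h1, h3]
    have e2 : b.val = d.val := by rw [← h2, h4]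
    rw [SimpleGraph.dist_self]
    unfold D
    rw [if_pos ⟨e1, e2⟩]
  · have hne : ¬ (a.val = c.val ∧ b.val = d.val) := by
      rintro ⟨e1, e2⟩
      apply hst
      apply Subtype.ext
      rw [hs, ht, Fin.ext e1, Fin.ext e2]
    unfold D
    rw [if_neg hne]
    by_cases hadj : a.val = c.val ∨ a.val = d.val ∨ b.val = c.val ∨ b.val = d.val
    · rw [if_pos hadj, SimpleGraph.dist_eq_one_iff_adj, adj_iff, hs, ht,
        inter_pair_card a b c d hab' hcd']
      simp only [Fin.ext_iff]
      split_ifs <;> omega
    · rw [if_neg hadj]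
      push Not at hadj
      obtain ⟨n1, n2, n3, n4⟩ := hadj
      have hac : a ≠ c := fun h => n1 (by rw [h])
      have had : a ≠ d := fun h => n2 (by rw [h])
      have hbc : b ≠ c := fun h => n3 (by rw [h])
      have hbd : b ≠ d := fun h => n4 (by rw [h])
      obtain ⟨r, hr⟩ : ∃ r : {s : Finset (Fin n) // s.card = 2}, r.1 = {a, c} :=
        ⟨⟨{a, c}, Finset.card_pair hac⟩, rfl⟩
      have hsr : (triangular n).Adj s r := by
        rw [adj_iff, hs, hr, inter_pair_card a b a c hab' hac, if_pos (Or.inl rfl), if_neg]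
        rintro (h | h)
        · exact hab' h.symm
        · exact hbc h
      have hrt : (triangular n).Adj r t := by
        rw [adj_iff, hr, ht, inter_pair_card a c c d hac hcd', if_pos (Or.inl rfl), if_neg]
        rintro (h | h)
        · exact hac h
        · exact had h
      have hnadj : ¬ (triangular n).Adj s t := by
        rw [adj_iff, hs, ht, inter_pair_card a b c d hab' hcd', if_neg, if_neg]
        · omega
        · rintro (h | h)
          · exact hbc h
          · exact hbd h
        · rintro (h | h)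
          · exact hac h
          · exact had h
      have hle : (triangular n).dist s t ≤ 2 :=
        SimpleGraph.dist_le (SimpleGraph.Walk.cons hsr (SimpleGraph.Walk.cons hrt
          SimpleGraph.Walk.nil))
      have hreach : (triangular n).Reachable s t := ⟨SimpleGraph.Walk.cons hsr
        (SimpleGraph.Walk.cons hrt SimpleGraph.Walk.nil)⟩
      have h0 : (triangular n).dist s t ≠ 0 := by
        intro h
        rcases SimpleGraph.dist_eq_zero_iff_eq_or_not_reachable.mp h with h' | h'
        · exact hst h'
        · exact h' hreach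
      have h1 : (triangular n).dist s t ≠ 1 := by
        intro h
        exact hnadj (SimpleGraph.dist_eq_one_iff_adj.mp h)
      omega

lemma card_sep {n N : ℕ} (w : ℕ → ℕ → ℕ → Option Bool)
    (hw : ∀ a b c d : ℕ, a < b → b < n → c < d → d < n →
      (∑ i ∈ Finset.range N, if Sep (w a b i) (w c d i) then 1 else 0) = D a b c d) :
    IsAddressing (triangular n) N
      (fun s i => w (lo s.1) (hi s.1) i.val) := by
  intro s t
  obtain ⟨a, b, hab, hs, h1, h2⟩ := exists_pair s
  obtain ⟨c, d, hcd, ht, h3, h4⟩ := exists_pair t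
  rw [dist_eq, Finset.card_filter, h1, h2, h3, h4, ← hw a b c d hab b.2 hcd d.2,
    Finset.sum_range]
  apply Finset.sum_congr rfl
  intro i _
  simp only [h1, h2, h3, h4]

/-- For every `n`, the triangular graph `T_n` has an addressing of length `⌊3 n / 2⌋`; hence its
addressing number is at most `⌊3 n / 2⌋`. -/
theorem result (n : ℕ) :
    (∃ a : {s : Finset (Fin n) // s.card = 2} → Fin (3 * n / 2) → Option Bool,
      IsAddressing (triangular n) (3 * n / 2) a) ∧
    addressingNumber (triangular n) ≤ 3 * n / 2 := by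
  have main : ∃ a : {s : Finset (Fin n) // s.card = 2} → Fin (3 * n / 2) → Option Bool,
      IsAddressing (triangular n) (3 * n / 2) a := by
    rcases Nat.even_or_odd' n with ⟨k, hk | hk⟩
    · have hN : 3 * n / 2 = 3 * k := by omega
      rw [hN]
      refine ⟨_, card_sep (wE k) ?_⟩
      intro a b c d hab hb hcd hd
      exact sum_E k a b c d hab (by omega) hcd (by omega)
    · have hN : 3 * n / 2 = 3 * k + 1 := by omega
      rw [hN]
      rcases Nat.eq_zero_or_pos k with h0 | hpos
      · refine ⟨fun _ _ => none, ?_⟩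
        intro s
        obtain ⟨a, b, hab, _⟩ := exists_pair s
        have := b.2
        omega
      · refine ⟨_, card_sep (wO k) ?_⟩
        intro a b c d hab hb hcd hd
        exact sum_O k a b c d hpos hab (by omega) hcd (by omega)
  exact ⟨main, Nat.sInf_le main⟩

end Pool.Agent.Results.MP_cec33a_co.ThreeHalves
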