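import Pool.Agent.Lib.StarCo.CliqueB

/-!
# Addressings of the triangular graph with star coordinates opposite to complete graphs

Suppose that an addressing of `T_n` of length `N` has, for every point `v`, a coordinate `i v` in
which the symbol `0` stands exactly on the pairs that contain `v` and the symbol `1` exactly on the
pairs inside a set `D v` of points. Then `2 N ≥ 3 n - 3`. For even `n` the addressing of
`ThreeHalves`, of length `3 n / 2`, is of this kind (`Pool.Agent.Lib.StarCo.example_even`).
-/

set_option autoImplicit false

namespace Pool.Agent.Results.MP_cec33a_co.CliqueCoordinates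

open Pool.Agent.Results.MP_cec33a_co.ThreeHalves (IsAddressing triangular)

/-- An addressing of `T_n` in which, for every point `v`, one coordinate is the biclique of the
pairs that contain `v` and the pairs inside a set `D v` has length at least `(3 n - 3) / 2`. -/
theorem result (n N : ℕ) (hn : 4 ≤ n)
    (w : {s : Finset (Fin n) // s.card = 2} → Fin N → Option Bool)
    (hw : IsAddressing (triangular n) N w) (i : Fin n → Fin N)
    (D : Fin n → Finset (Fin n)) (hv : ∀ v, v ∉ D v)
    (h0 : ∀ v e, w e (i v) = some false ↔ v ∈ e.1)
    (h1 : ∀ v e, w e (i v) = some true ↔ e.1 ⊆ D v) :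
    3 * n ≤ 2 * N + 3 :=
  Pool.Agent.Lib.StarCo.clique_bound hn w hw i D hv h0 h1

end Pool.Agent.Results.MP_cec33a_co.CliqueCoordinates
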