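import Mathlib
import Pool.Agent.Results.MP_cec33a_co.ThreeHalves

/-!
# A lower bound for the addressing number of the triangular graphs `T_n`

An addressing of length `N` gives `2 N` classes of edges of `K_n` (the edges whose word has the
symbol `s` in the coordinate `c`, for all `(c, s)`). Let `R` be the space of the vectors of the
class sizes of all weights on the edges whose sum at each vertex is `0`, and `r` its dimension.

* `dim_bound`: `r + n ≤ N + 1` (a refinement of Witsenhausen's inequality);
* `card_bad`: for each edge all but `4 r` of the classes opposite to it are empty, a star or the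
  complement of a star;
* hence, fixing a vertex `b`, at least a part `2 ^ (-4 r)` of the other vertices `a` form a
  tournament, `a → a'` if a class opposite to the edge `{a, b}` is the star of `a'`;
* a transitive subtournament with `m + 2` vertices gives `m` independent vectors in `R`
  (`chain_bound`).
-/

set_option autoImplicit false

namespace Pool.Agent.Results.MP_cec33a_co.LogLowerBound

open Pool.Agent.Results.MP_cec33a_co.ThreeHalves
  (IsAddressing addressingNumber triangular inter_pair_card dist_eq D exists_pair lo hi)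

open Finset

/-- The index with the other symbol. -/
def fl {N : ℕ} (i : Fin N × Bool) : Fin N × Bool := (i.1, !i.2)

lemma fl_fl {N : ℕ} (i : Fin N × Bool) : fl (fl i) = i := by
  unfold fl; simp

/-- The incidence numbers of an addressing: `X a b (c, s) = 1` if the word of the edge `{a, b}`
has the symbol `s` in the coordinate `c`. -/
structure Good {n N : ℕ} (X : Fin n → Fin n → Fin N × Bool → ℚ) : Prop where
  sym : ∀ a b i, X a b i = X b a i
  diag : ∀ a i, X a a i = 0
  val : ∀ a b i, X a b i = 0 ∨ X a b i = 1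
  main : ∀ a b c d, a ≠ b → c ≠ d → ∑ i, X a b (fl i) * X c d i =
    2 - (if a = c then 1 else 0) - (if a = d then 1 else 0) - (if b = c then 1 else 0)
      - (if b = d then 1 else 0)

lemma dist_add {n : ℕ} (u v : {s : Finset (Fin n) // s.card = 2}) :
    (triangular n).dist u v + (u.1 ∩ v.1).card = 2 := by
  obtain ⟨a, b, hab, hs, h1, h2⟩ := exists_pair u
  obtain ⟨c, d, hcd, ht, h3, h4⟩ := exists_pair v
  have hab' : a ≠ b := fun h => by rw [h] at hab; exact lt_irrefl _ hab
  have hcd' : c ≠ d := fun h => by rw [h] at hcd; exact lt_irrefl _ hcd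
  rw [dist_eq, h1, h2, h3, h4, hs, ht, inter_pair_card a b c d hab' hcd']
  unfold D
  simp only [Fin.ext_iff]
  split_ifs <;> omega

lemma good_of_addressing {n N : ℕ} {w : {s : Finset (Fin n) // s.card = 2} → Fin N → Option Bool}
    (hw : IsAddressing (triangular n) N w) :
    ∃ X : Fin n → Fin n → Fin N × Bool → ℚ, Good X := by
  classical
  refine ⟨fun a b i => if h : a ≠ b then
    (if w ⟨{a, b}, Finset.card_pair h⟩ i.1 = some i.2 then 1 else 0) else 0, ?_, ?_, ?_, ?_⟩
  · intro a b i
    by_cases h : a = b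
    · subst h; simp
    · have h' : b ≠ a := fun e => h e.symm
      have e : (⟨{a, b}, Finset.card_pair h⟩ : {s : Finset (Fin n) // s.card = 2}) =
          ⟨{b, a}, Finset.card_pair h'⟩ := Subtype.ext (Finset.pair_comm a b)
      simp only [ne_eq, h, h', not_false_eq_true, dite_true, e]
  · intro a i
    simp
  · intro a b i
    split_ifs <;> simp
  · intro a b c d hab hcd
    simp only [dif_pos hab, dif_pos hcd]
    set u : {s : Finset (Fin n) // s.card = 2} := ⟨{a, b}, Finset.card_pair hab⟩ with hu
    set v : {s : Finset (Fin n) // s.card = 2} := ⟨{c, d}, Finset.card_pair hcd⟩ with hv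
    have h1 : ∑ i : Fin N × Bool, ((if w u (fl i).1 = some (fl i).2 then (1 : ℚ) else 0) *
        (if w v i.1 = some i.2 then 1 else 0)) = ((Finset.univ.filter fun i : Fin N =>
          ThreeHalves.Sep (w u i) (w v i)).card : ℚ) := by
      rw [Finset.card_filter, Nat.cast_sum, Fintype.sum_prod_type]
      apply Finset.sum_congr rfl
      intro i _
      rw [Fintype.sum_bool]
      unfold fl ThreeHalves.Sep
      dsimp only
      rcases w u i with _ | _ | _ <;> rcases w v i with _ | _ | _ <;> simp
    rw [h1, ← hw u v]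
    have h2 : ((triangular n).dist u v : ℚ) =
        2 - ((({a, b} : Finset (Fin n)) ∩ {c, d}).card : ℚ) := by
      have h3 := dist_add u v
      have h4 : (((triangular n).dist u v : ℕ) : ℚ) + ((u.1 ∩ v.1).card : ℚ) = 2 := by
        exact_mod_cast h3
      rw [← h4, hu, hv]
      ring
    rw [h2, inter_pair_card a b c d hab hcd]
    clear h2 h1
    clear_value u v
    push_cast
    have e1 : ¬ (a = c ∧ a = d) := fun h => hcd (h.1.symm.trans h.2)
    have e2 : ¬ (b = c ∧ b = d) := fun h => hcd (h.1.symm.trans h.2)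
    split_ifs <;> first | (exfalso; tauto) | norm_num

/-- Indices separating two edges. -/
def cnt {n N : ℕ} (X : Fin n → Fin n → Fin N × Bool → ℚ) (a b c d : Fin n) :
    Finset (Fin N × Bool) :=
  Finset.univ.filter fun i => X a b (fl i) = 1 ∧ X c d i = 1

lemma mem_cnt {n N : ℕ} {X : Fin n → Fin n → Fin N × Bool → ℚ} {a b c d : Fin n}
    {i : Fin N × Bool} : i ∈ cnt X a b c d ↔ X a b (fl i) = 1 ∧ X c d i = 1 := by
  simp [cnt]

lemma card_cnt {n N : ℕ} {X : Fin n → Fin n → Fin N × Bool → ℚ} (hX : Good X) (a b c d : Fin n)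
    (hab : a ≠ b) (hcd : c ≠ d) : ((cnt X a b c d).card : ℚ) =
    2 - (if a = c then 1 else 0) - (if a = d then 1 else 0) - (if b = c then 1 else 0)
      - (if b = d then 1 else 0) := by
  rw [← hX.main a b c d hab hcd, cnt, Finset.card_filter, Nat.cast_sum]
  apply Finset.sum_congr rfl
  intro i _
  rcases hX.val a b (fl i) with h | h <;> rcases hX.val c d i with h' | h' <;> simp [h, h']

lemma disj {n N : ℕ} {X : Fin n → Fin n → Fin N × Bool → ℚ} (hX : Good X) {a b : Fin n}
    {i : Fin N × Bool} (h : X a b (fl i) = 1) : X a b i = 0 := by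
  rcases hX.val a b i with h' | h'
  · exact h'
  exfalso
  have hab : a ≠ b := by
    rintro rfl
    rw [hX.diag] at h'
    norm_num at h'
  have hc := card_cnt hX a b a b hab hab
  have hm : i ∈ cnt X a b a b := mem_cnt.2 ⟨h, h'⟩
  have h0 : ((cnt X a b a b).card : ℚ) = 0 := by
    rw [hc]
    simp only [if_true, if_neg hab, if_neg hab.symm]
    norm_num
  rw [Nat.cast_eq_zero, Finset.card_eq_zero] at h0
  rw [h0] at hm
  exact absurd hm (Finset.notMem_empty _)

lemma card_le_two {n N : ℕ} {X : Fin n → Fin n → Fin N × Bool → ℚ} (hX : Good X) (a b c d : Fin n)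
    (hab : a ≠ b) (hcd : c ≠ d) : (cnt X a b c d).card ≤ 2 := by
  have h := card_cnt hX a b c d hab hcd
  have : ((cnt X a b c d).card : ℚ) ≤ 2 := by
    rw [h]
    have e : ∀ p : Prop, [Decidable p] → (0 : ℚ) ≤ if p then 1 else 0 := by
      intro p _
      split_ifs <;> norm_num
    have := e (a = c)
    have := e (a = d)
    have := e (b = c)
    have := e (b = d)
    linarith
  exact_mod_cast this

lemma card_one {n N : ℕ} {X : Fin n → Fin n → Fin N × Bool → ℚ} (hX : Good X) (a b c : Fin n)
    (hab : a ≠ b) (hcb : c ≠ b) (hac : a ≠ c) : (cnt X a b c b).card = 1 := by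
  have h := card_cnt hX a b c b hab hcb
  simp only [if_neg hac, if_neg hab, if_neg hcb.symm, if_true] at h
  have : ((cnt X a b c b).card : ℚ) = 1 := by rw [h]; norm_num
  exact_mod_cast this

/-! ### Weights -/

/-- The combination of the incidence vectors of the edges with given weights. -/
def Phi {n N : ℕ} (X : Fin n → Fin n → Fin N × Bool → ℚ) :
    (Fin n → Fin n → ℚ) →ₗ[ℚ] (Fin N × Bool → ℚ) where
  toFun w i := ∑ a, ∑ b, w a b * X a b i
  map_add' w w' := by
    ext i
    simp only [Pi.add_apply, add_mul, Finset.sum_add_distrib]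
  map_smul' r w := by
    ext i
    simp only [Pi.smul_apply, smul_eq_mul, RingHom.id_apply, Finset.mul_sum, mul_assoc]

/-- Weight of the edges at a vertex. -/
def star {n : ℕ} : (Fin n → Fin n → ℚ) →ₗ[ℚ] (Fin n → ℚ) where
  toFun w v := ∑ b, (w v b + w b v)
  map_add' w w' := by
    ext v
    simp only [Pi.add_apply]
    rw [← Finset.sum_add_distrib]
    apply Finset.sum_congr rfl
    intro b _
    ring
  map_smul' r w := by
    ext v
    simp only [Pi.smul_apply, smul_eq_mul, RingHom.id_apply, Finset.mul_sum]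
    apply Finset.sum_congr rfl
    intro b _
    ring

/-- Diagonal of a weight. -/
def dg {n : ℕ} : (Fin n → Fin n → ℚ) →ₗ[ℚ] (Fin n → ℚ) where
  toFun w v := w v v
  map_add' w w' := by
    ext v
    simp only [Pi.add_apply]
  map_smul' r w := by
    ext v
    simp only [Pi.smul_apply, smul_eq_mul, RingHom.id_apply]

/-- Unit weight. -/
def dl {n : ℕ} (a b : Fin n) : Fin n → Fin n → ℚ := Pi.single a (Pi.single b 1)

lemma Phi_dl {n N : ℕ} (X : Fin n → Fin n → Fin N × Bool → ℚ) (a b : Fin n) :
    Phi X (dl a b) = X a b := by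
  ext i
  change ∑ a', ∑ b', dl a b a' b' * X a' b' i = X a b i
  rw [Finset.sum_eq_single a, Finset.sum_eq_single b]
  · simp [dl]
  · intro b' _ hb
    simp [dl, Pi.single_eq_of_ne hb]
  · simp
  · intro a' _ ha
    apply Finset.sum_eq_zero
    intro b' _
    simp [dl, Pi.single_eq_of_ne ha]
  · simp

lemma star_dl {n : ℕ} (a b : Fin n) :
    star (dl a b) = Pi.single a 1 + Pi.single b 1 := by
  ext v
  change ∑ b', (dl a b v b' + dl a b b' v) = _
  rw [Finset.sum_add_distrib, Pi.add_apply]
  congr 1
  · by_cases h : v = a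
    · subst h
      simp [dl]
    · simp [dl, Pi.single_eq_of_ne h]
  · rw [Finset.sum_eq_single a]
    · simp [dl]
    · intro a' _ ha
      simp [dl, Pi.single_eq_of_ne ha]
    · simp

lemma dg_dl {n : ℕ} (a b : Fin n) (h : a ≠ b) : dg (dl a b) = 0 := by
  ext v
  change dl a b v v = 0
  by_cases hv : v = a
  · subst hv
    simp [dl, Pi.single_eq_of_ne h]
  · simp [dl, Pi.single_eq_of_ne hv]

/-- Weights with vanishing stars. -/
def Zs (n : ℕ) : Submodule ℚ (Fin n → Fin n → ℚ) := LinearMap.ker star ⊓ LinearMap.ker dg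

/-- The space of relations. -/
def Rs {n N : ℕ} (X : Fin n → Fin n → Fin N × Bool → ℚ) : Submodule ℚ (Fin N × Bool → ℚ) :=
  (Zs n).map (Phi X)

lemma sum_star {n : ℕ} (w : Fin n → Fin n → ℚ) : ∑ v, star w v = 2 * ∑ a, ∑ b, w a b := by
  change ∑ v, ∑ b, (w v b + w b v) = _
  simp only [Finset.sum_add_distrib]
  rw [two_mul]
  congr 1
  rw [Finset.sum_comm]

lemma prod4 {n : ℕ} (f g : Fin n → Fin n → ℚ) :
    (∑ a, ∑ b, f a b) * (∑ c, ∑ d, g c d) = ∑ a, ∑ b, ∑ c, ∑ d, f a b * g c d := by
  rw [Finset.sum_mul]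
  apply Finset.sum_congr rfl
  intro a _
  rw [Finset.sum_mul]
  apply Finset.sum_congr rfl
  intro b _
  rw [Finset.mul_sum]
  apply Finset.sum_congr rfl
  intro c _
  rw [Finset.mul_sum]

lemma quad {n N : ℕ} {X : Fin n → Fin n → Fin N × Bool → ℚ} (hX : Good X)
    (w : Fin n → Fin n → ℚ) (hw : dg w = 0) :
    ∑ i, Phi X w (fl i) * Phi X w i = 2 * (∑ a, ∑ b, w a b) ^ 2 - ∑ v, star w v ^ 2 := by
  have hw' : ∀ a, w a a = 0 := fun a => congrFun hw a
  have h1 : ∑ i, Phi X w (fl i) * Phi X w i =
      ∑ a, ∑ b, ∑ c, ∑ d, w a b * w c d * ∑ i, X a b (fl i) * X c d i := by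
    change ∑ i, (∑ a, ∑ b, w a b * X a b (fl i)) * (∑ a, ∑ b, w a b * X a b i) = _
    simp only [prod4]
    rw [Finset.sum_comm]
    apply Finset.sum_congr rfl
    intro a _
    rw [Finset.sum_comm]
    apply Finset.sum_congr rfl
    intro b _
    rw [Finset.sum_comm]
    apply Finset.sum_congr rfl
    intro c _
    rw [Finset.sum_comm]
    apply Finset.sum_congr rfl
    intro d _
    rw [Finset.mul_sum]
    apply Finset.sum_congr rfl
    intro i _
    ring
  have h2 : ∀ a b c d, w a b * w c d * ∑ i, X a b (fl i) * X c d i =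
      w a b * w c d * (2 - (if a = c then 1 else 0) - (if a = d then 1 else 0)
        - (if b = c then 1 else 0) - (if b = d then 1 else 0)) := by
    intro a b c d
    by_cases hab : a = b
    · subst hab; simp [hw']
    by_cases hcd : c = d
    · subst hcd; simp [hw']
    rw [hX.main a b c d hab hcd]
  rw [h1]
  simp only [h2, mul_sub, Finset.sum_sub_distrib]
  have e0 : ∑ a, ∑ b, ∑ c, ∑ d, w a b * w c d * 2 = 2 * (∑ a, ∑ b, w a b) ^ 2 := by
    rw [sq, prod4]
    simp only [Finset.mul_sum]
    apply Finset.sum_congr rfl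
    intro a _
    apply Finset.sum_congr rfl
    intro b _
    apply Finset.sum_congr rfl
    intro c _
    apply Finset.sum_congr rfl
    intro d _
    ring
  have e1 : ∑ a, ∑ b, ∑ c, ∑ d, w a b * w c d * (if a = c then 1 else 0) =
      ∑ v, (∑ b, w v b) * (∑ b, w v b) := by
    apply Finset.sum_congr rfl
    intro a _
    rw [Finset.sum_mul_sum]
    apply Finset.sum_congr rfl
    intro b _
    rw [Finset.sum_eq_single a]
    · simp
    · intro c _ hc
      simp [hc.symm]
    · simp
  have e2 : ∑ a, ∑ b, ∑ c, ∑ d, w a b * w c d * (if a = d then 1 else 0) =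
      ∑ v, (∑ b, w v b) * (∑ b, w b v) := by
    apply Finset.sum_congr rfl
    intro a _
    rw [Finset.sum_mul_sum]
    apply Finset.sum_congr rfl
    intro b _
    apply Finset.sum_congr rfl
    intro c _
    simp
  have e3 : ∑ a, ∑ b, ∑ c, ∑ d, w a b * w c d * (if b = c then 1 else 0) =
      ∑ v, (∑ b, w b v) * (∑ b, w v b) := by
    rw [Finset.sum_comm]
    apply Finset.sum_congr rfl
    intro b _
    rw [Finset.sum_mul_sum]
    apply Finset.sum_congr rfl
    intro a _
    rw [Finset.sum_eq_single b]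
    · simp
    · intro c _ hc
      simp [hc.symm]
    · simp
  have e4 : ∑ a, ∑ b, ∑ c, ∑ d, w a b * w c d * (if b = d then 1 else 0) =
      ∑ v, (∑ b, w b v) * (∑ b, w b v) := by
    rw [Finset.sum_comm]
    apply Finset.sum_congr rfl
    intro b _
    rw [Finset.sum_mul_sum]
    apply Finset.sum_congr rfl
    intro a _
    apply Finset.sum_congr rfl
    intro c _
    simp
  rw [e0, e1, e2, e3, e4]
  have e5 : ∀ v, star w v = (∑ b, w v b) + ∑ b, w b v := by
    intro v
    change ∑ b, (w v b + w b v) = _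
    rw [Finset.sum_add_distrib]
  simp only [e5]
  rw [sub_sub, sub_sub, sub_sub]
  congr 1
  rw [← Finset.sum_add_distrib, ← Finset.sum_add_distrib, ← Finset.sum_add_distrib]
  apply Finset.sum_congr rfl
  intro v _
  ring

/-- Weights `s a + s b`. -/
def wt {n : ℕ} : (Fin n → ℚ) →ₗ[ℚ] (Fin n → Fin n → ℚ) where
  toFun s a b := if a = b then 0 else s a + s b
  map_add' s s' := by
    ext a b
    simp only [Pi.add_apply]
    split_ifs
    · simp
    · ring
  map_smul' r s := by
    ext a b
    simp only [Pi.smul_apply, smul_eq_mul, RingHom.id_apply]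
    split_ifs
    · simp
    · ring

lemma dg_wt {n : ℕ} (s : Fin n → ℚ) : dg (wt s) = 0 := by
  ext v
  change (if v = v then (0 : ℚ) else _) = 0
  simp

lemma star_wt {n : ℕ} (s : Fin n → ℚ) (hs : ∑ v, s v = 0) (v : Fin n) :
    star (wt s) v = 2 * ((n : ℚ) - 2) * s v := by
  change ∑ b, ((if v = b then (0 : ℚ) else s v + s b) + (if b = v then (0 : ℚ) else s b + s v)) = _
  have : ∀ b, ((if v = b then (0 : ℚ) else s v + s b) + (if b = v then (0 : ℚ) else s b + s v)) =
      2 * (s v + s b) - if b = v then 4 * s v else 0 := by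
    intro b
    by_cases h : b = v
    · subst h; simp; ring
    · have h' : ¬ v = b := fun e => h e.symm
      simp [h, h']; ring
  simp only [this]
  rw [Finset.sum_sub_distrib, ← Finset.mul_sum, Finset.sum_add_distrib, hs]
  simp
  ring

/-- Difference of the two symbols. -/
def df {N : ℕ} : (Fin N × Bool → ℚ) →ₗ[ℚ] (Fin N → ℚ) where
  toFun g c := g (c, true) - g (c, false)
  map_add' g g' := by
    ext c
    simp only [Pi.add_apply]
    ring
  map_smul' r g := by
    ext c
    simp only [Pi.smul_apply, smul_eq_mul, RingHom.id_apply]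
    ring

/-- Sum of the entries. -/
def sm {n : ℕ} : (Fin n → ℚ) →ₗ[ℚ] ℚ where
  toFun s := ∑ v, s v
  map_add' s s' := by
    simp only [Pi.add_apply, Finset.sum_add_distrib]
  map_smul' r s := by
    simp only [Pi.smul_apply, smul_eq_mul, RingHom.id_apply, Finset.mul_sum]

lemma dim_bound {n N : ℕ} {X : Fin n → Fin n → Fin N × Bool → ℚ} (hX : Good X) (hn : 3 ≤ n) :
    Module.finrank ℚ (Rs X) + n ≤ N + 1 := by
  let Psi : (↥(Rs X) × (Fin n → ℚ)) →ₗ[ℚ] ((Fin N → ℚ) × ℚ) :=
    LinearMap.prod (df ∘ₗ ((Rs X).subtype.coprod (Phi X ∘ₗ wt)))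
      (sm ∘ₗ LinearMap.snd ℚ (↥(Rs X)) (Fin n → ℚ))
  have hinj : Function.Injective Psi := by
    rw [injective_iff_map_eq_zero]
    rintro ⟨⟨r, hr⟩, s⟩ h
    obtain ⟨z, hz, hzr⟩ := hr
    have h1 : df (r + Phi X (wt s)) = 0 := congrArg Prod.fst h
    have h2 : ∑ v, s v = 0 := congrArg Prod.snd h
    have hz1 : star z = 0 := hz.1
    have hz2 : dg z = 0 := hz.2
    set w := z + wt s with hw
    have hPw : Phi X w = r + Phi X (wt s) := by rw [hw, map_add, hzr]
    have hdg : dg w = 0 := by rw [hw, map_add, hz2, dg_wt, add_zero]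
    have hst : ∀ v, star w v = 2 * ((n : ℚ) - 2) * s v := by
      intro v
      rw [hw, map_add, hz1, zero_add, star_wt s h2 v]
    have hT : ∑ a, ∑ b, w a b = 0 := by
      have h3 := sum_star w
      simp only [hst] at h3
      rw [← Finset.mul_sum, h2] at h3
      linarith
    have hq := quad hX w hdg
    have hfl : ∀ i, Phi X w (fl i) = Phi X w i := by
      rintro ⟨c, s'⟩
      have h4 : Phi X w (c, true) - Phi X w (c, false) = 0 := by
        rw [hPw]
        exact congrFun h1 c
      cases s'
      · change Phi X w (c, true) = Phi X w (c, false)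
        linarith
      · change Phi X w (c, false) = Phi X w (c, true)
        linarith
    simp only [hfl] at hq
    rw [hT] at hq
    have hq1 : ∑ i, Phi X w i * Phi X w i = 0 := by
      apply le_antisymm
      · rw [hq]
        have : 0 ≤ ∑ v, star w v ^ 2 := Finset.sum_nonneg fun v _ => sq_nonneg _
        linarith
      · exact Finset.sum_nonneg fun i _ => mul_self_nonneg _
    have hq2 : ∑ v, star w v ^ 2 = 0 := by linarith
    have hP0 : Phi X w = 0 := by
      ext i
      have := (Finset.sum_eq_zero_iff_of_nonneg (fun i _ => mul_self_nonneg _)).1 hq1 i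
        (Finset.mem_univ i)
      exact mul_self_eq_zero.1 this
    have hs0 : s = 0 := by
      ext v
      have h5 := (Finset.sum_eq_zero_iff_of_nonneg (fun v _ => sq_nonneg _)).1 hq2 v
        (Finset.mem_univ v)
      rw [hst v] at h5
      have h6 : 2 * ((n : ℚ) - 2) * s v = 0 := by
        exact pow_eq_zero_iff (two_ne_zero) |>.1 h5
      have h7 : (2 : ℚ) * ((n : ℚ) - 2) ≠ 0 := by
        have : (3 : ℚ) ≤ n := by exact_mod_cast hn
        intro h
        linarith
      exact (mul_eq_zero.1 h6).resolve_left h7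
    have hr0 : r = 0 := by
      rw [hPw, hs0, map_zero, map_zero, add_zero] at hP0
      exact hP0
    subst hs0
    subst hr0
    rfl
  have h := LinearMap.finrank_le_finrank_of_injective hinj
  rw [Module.finrank_prod, Module.finrank_prod, Module.finrank_fin_fun, Module.finrank_fin_fun,
    Module.finrank_self] at h
  exact h

/-! ### Coordinates of the separations of an edge -/

lemma supp_rank {ι : Type} [Fintype ι] [DecidableEq ι] (G : Set (ι → ℚ))
    (P : Submodule ℚ (ι → ℚ)) (hGP : ∀ g ∈ G, g ∈ P) (J I : Finset ι)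
    (hG : ∀ g ∈ G, (J.filter fun i => g i ≠ 0).card ≤ 4) (hI : I ⊆ J)
    (hcov : ∀ i ∈ I, ∃ g ∈ G, g i ≠ 0) : I.card ≤ 4 * Module.finrank ℚ P := by
  obtain ⟨b, hbG, hspan, hli⟩ := exists_linearIndependent ℚ G
  have hfin : b.Finite := hli.setFinite
  have : Fintype b := hfin.fintype
  have hcard : b.toFinset.card ≤ Module.finrank ℚ P := by
    rw [← finrank_span_set_eq_card hli]
    apply Submodule.finrank_mono
    rw [Submodule.span_le]
    intro g hg
    exact hGP g (hbG hg)
  have hsub : I ⊆ b.toFinset.biUnion fun g => J.filter fun i => g i ≠ 0 := by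
    intro i hi
    rw [Finset.mem_biUnion]
    by_contra hcon
    push Not at hcon
    obtain ⟨g, hg, hgi⟩ := hcov i hi
    have h1 : g ∈ Submodule.span ℚ b := by
      rw [hspan]
      exact Submodule.subset_span hg
    have h2 : Submodule.span ℚ b ≤ LinearMap.ker (LinearMap.proj (R := ℚ) (φ := fun _ : ι => ℚ) i) := by
      rw [Submodule.span_le]
      intro h hh
      have h3 := hcon h (Set.mem_toFinset.2 hh)
      rw [Finset.mem_filter] at h3
      push Not at h3
      exact h3 (hI hi)
    exact hgi (h2 h1)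
  calc I.card ≤ _ := Finset.card_le_card hsub
    _ ≤ b.toFinset.card * 4 := by
      apply Finset.card_biUnion_le_card_mul
      intro g hg
      exact hG g (hbG (Set.mem_toFinset.1 hg))
    _ ≤ 4 * Module.finrank ℚ P := by omega

/-- The symbol class `i` is the star of `v`. -/
def IsStar {n N : ℕ} (X : Fin n → Fin n → Fin N × Bool → ℚ) (i : Fin N × Bool) (v : Fin n) : Prop :=
  ∀ a b, a ≠ b → (X a b i = 1 ↔ (a = v ∨ b = v))

/-- The symbol class `i` is the complement of the star of `v`. -/
def IsCostar {n N : ℕ} (X : Fin n → Fin n → Fin N × Bool → ℚ) (i : Fin N × Bool) (v : Fin n) :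
    Prop :=
  ∀ a b, a ≠ b → (X a b i = 1 ↔ (a ≠ v ∧ b ≠ v))

/-- The symbol class `i` is empty. -/
def IsEmp {n N : ℕ} (X : Fin n → Fin n → Fin N × Bool → ℚ) (i : Fin N × Bool) : Prop :=
  ∀ a b, X a b i = 0

open Classical in
/-- The bad indices of an edge. -/
noncomputable def bad {n N : ℕ} (X : Fin n → Fin n → Fin N × Bool → ℚ) (o d : Fin n) :
    Finset (Fin N × Bool) :=
  Finset.univ.filter fun i => X o d (fl i) = 1 ∧ ¬ IsEmp X i ∧ (∀ v, ¬ IsStar X i v) ∧
    ∀ v, ¬ IsCostar X i v

lemma mem_bad {n N : ℕ} {X : Fin n → Fin n → Fin N × Bool → ℚ} {o d : Fin n}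
    {i : Fin N × Bool} : i ∈ bad X o d ↔ X o d (fl i) = 1 ∧ ¬ IsEmp X i ∧
      (∀ v, ¬ IsStar X i v) ∧ ∀ v, ¬ IsCostar X i v := by
  simp [bad]

/-- The classification of the classes on which all small relations vanish. -/
lemma classify {n N : ℕ} {X : Fin n → Fin n → Fin N × Bool → ℚ} (hX : Good X) (o d : Fin n)
    (hod : o ≠ d) (i : Fin N × Bool) (h0 : X o d i = 0)
    (h1 : ∀ k l, k ≠ o → k ≠ d → l ≠ o → l ≠ d → X o k i - X k d i - X o l i + X l d i = 0)
    (h2 : ∀ k l, k ≠ o → k ≠ d → l ≠ o → l ≠ d → k ≠ l →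
      X k l i + X o d i - X o k i - X d l i = 0) :
    IsEmp X i ∨ (∃ v, IsStar X i v) ∨ ∃ v, IsCostar X i v := by
  have h0' : X d o i = 0 := by rw [hX.sym]; exact h0
  by_cases hc : ∃ k, k ≠ o ∧ k ≠ d ∧ X o k i ≠ X k d i
  · obtain ⟨k, hko, hkd, hk⟩ := hc
    right; right
    rcases hX.val o k i with ho | ho <;> rcases hX.val k d i with hd | hd
    · exact absurd (ho.trans hd.symm) hk
    · -- costar of `o`
      have h3 : ∀ l, l ≠ o → l ≠ d → X o l i = 0 ∧ X l d i = 1 := by
        intro l hlo hld
        have h4 := h1 k l hko hkd hlo hld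
        rcases hX.val o l i with h5 | h5 <;> rcases hX.val l d i with h6 | h6
        · rw [ho, hd, h5, h6] at h4; norm_num at h4
        · exact ⟨h5, h6⟩
        · rw [ho, hd, h5, h6] at h4; norm_num at h4
        · rw [ho, hd, h5, h6] at h4; norm_num at h4
      have hz : ∀ l, X o l i = 0 := by
        intro l
        by_cases hlo : l = o
        · rw [hlo]; exact hX.diag o i
        by_cases hld : l = d
        · rw [hld]; exact h0
        exact (h3 l hlo hld).1
      refine ⟨o, ?_⟩
      intro a b hab
      constructor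
      · intro h
        constructor
        · rintro rfl
          rw [hz b] at h
          norm_num at h
        · rintro rfl
          rw [hX.sym, hz a] at h
          norm_num at h
      · rintro ⟨hao, hbo⟩
        by_cases had : a = d
        · subst had
          rw [hX.sym]
          exact (h3 b hbo (fun e => hab e.symm)).2
        by_cases hbd : b = d
        · subst hbd
          exact (h3 a hao hab).2
        have h4 := h2 a b hao had hbo hbd hab
        rw [h0, (h3 a hao had).1, hX.sym d b, (h3 b hbo hbd).2] at h4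
        linarith
    · -- costar of `d`
      have h3 : ∀ l, l ≠ o → l ≠ d → X o l i = 1 ∧ X l d i = 0 := by
        intro l hlo hld
        have h4 := h1 k l hko hkd hlo hld
        rcases hX.val o l i with h5 | h5 <;> rcases hX.val l d i with h6 | h6
        · rw [ho, hd, h5, h6] at h4; norm_num at h4
        · rw [ho, hd, h5, h6] at h4; norm_num at h4
        · exact ⟨h5, h6⟩
        · rw [ho, hd, h5, h6] at h4; norm_num at h4
      have hz : ∀ l, X d l i = 0 := by
        intro l
        by_cases hlo : l = o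
        · rw [hlo]; exact h0'
        by_cases hld : l = d
        · rw [hld]; exact hX.diag d i
        rw [hX.sym]
        exact (h3 l hlo hld).2
      refine ⟨d, ?_⟩
      intro a b hab
      constructor
      · intro h
        constructor
        · rintro rfl
          rw [hz b] at h
          norm_num at h
        · rintro rfl
          rw [hX.sym, hz a] at h
          norm_num at h
      · rintro ⟨had, hbd⟩
        by_cases hao : a = o
        · subst hao
          exact (h3 b (fun e => hab e.symm) hbd).1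
        by_cases hbo : b = o
        · subst hbo
          rw [hX.sym]
          exact (h3 a hab had).1
        have h4 := h2 a b hao had hbo hbd hab
        rw [h0, (h3 a hao had).1, hX.sym d b, (h3 b hbo hbd).2] at h4
        linarith
    · exact absurd (ho.trans hd.symm) hk
  · push Not at hc
    have h3 : ∀ k l, k ≠ o → k ≠ d → l ≠ o → l ≠ d → k ≠ l → X k l i = X o k i + X o l i := by
      intro k l hko hkd hlo hld hkl
      have h4 := h2 k l hko hkd hlo hld hkl
      rw [h0, hX.sym d l, ← hc l hlo hld] at h4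
      linarith
    by_cases hk : ∃ k, k ≠ o ∧ k ≠ d ∧ X o k i = 1
    · obtain ⟨k, hko, hkd, hk⟩ := hk
      right; left
      have h4 : ∀ l, l ≠ o → l ≠ d → l ≠ k → X o l i = 0 := by
        intro l hlo hld hlk
        have h5 := h3 k l hko hkd hlo hld hlk.symm
        rcases hX.val o l i with h6 | h6
        · exact h6
        rcases hX.val k l i with h7 | h7 <;> rw [hk, h6, h7] at h5 <;> norm_num at h5
      -- values at an edge avoiding `k`
      have h5 : ∀ a b, a ≠ b → a ≠ k → b ≠ k → X a b i = 0 := by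
        intro a b hab hak hbk
        have hoo : ∀ l, l ≠ k → X o l i = 0 := by
          intro l hlk
          by_cases hlo : l = o
          · rw [hlo]; exact hX.diag o i
          by_cases hld : l = d
          · rw [hld]; exact h0
          exact h4 l hlo hld hlk
        have hdd : ∀ l, l ≠ k → X d l i = 0 := by
          intro l hlk
          by_cases hlo : l = o
          · rw [hlo]; exact h0'
          by_cases hld : l = d
          · rw [hld]; exact hX.diag d i
          rw [hX.sym, ← hc l hlo hld]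
          exact h4 l hlo hld hlk
        by_cases hao : a = o
        · rw [hao]; exact hoo b hbk
        by_cases hbo : b = o
        · rw [hbo, hX.sym]; exact hoo a hak
        by_cases had : a = d
        · rw [had]; exact hdd b hbk
        by_cases hbd : b = d
        · rw [hbd, hX.sym]; exact hdd a hak
        rw [h3 a b hao had hbo hbd hab, h4 a hao had hak, h4 b hbo hbd hbk, add_zero]
      have h6 : ∀ l, l ≠ k → X k l i = 1 := by
        intro l hlk
        by_cases hlo : l = o
        · rw [hlo, hX.sym]; exact hk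
        by_cases hld : l = d
        · rw [hld, ← hc k hko hkd]; exact hk
        rw [h3 k l hko hkd hlo hld hlk.symm, hk, h4 l hlo hld hlk, add_zero]
      refine ⟨k, ?_⟩
      intro a b hab
      constructor
      · intro h
        by_contra hcon
        push Not at hcon
        rw [h5 a b hab hcon.1 hcon.2] at h
        norm_num at h
      · rintro (rfl | rfl)
        · exact h6 b hab.symm
        · rw [hX.sym]; exact h6 a hab
    · push Not at hk
      left
      have h4 : ∀ l, l ≠ o → l ≠ d → X o l i = 0 := fun l hlo hld =>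
        (hX.val o l i).resolve_right (hk l hlo hld)
      have hoo : ∀ l, X o l i = 0 := by
        intro l
        by_cases hlo : l = o
        · rw [hlo]; exact hX.diag o i
        by_cases hld : l = d
        · rw [hld]; exact h0
        exact h4 l hlo hld
      have hdd : ∀ l, X d l i = 0 := by
        intro l
        by_cases hlo : l = o
        · rw [hlo]; exact h0'
        by_cases hld : l = d
        · rw [hld]; exact hX.diag d i
        rw [hX.sym, ← hc l hlo hld]
        exact h4 l hlo hld
      intro a b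
      by_cases hab : a = b
      · rw [hab]; exact hX.diag b i
      by_cases hao : a = o
      · rw [hao]; exact hoo b
      by_cases hbo : b = o
      · rw [hbo, hX.sym]; exact hoo a
      by_cases had : a = d
      · rw [had]; exact hdd b
      by_cases hbd : b = d
      · rw [hbd, hX.sym]; exact hdd a
      rw [h3 a b hao had hbo hbd hab, h4 a hao had, h4 b hbo hbd, add_zero]

lemma card_supp4 {ι : Type} [DecidableEq ι] (J : Finset ι) (f : Fin 4 → ι → ℚ) (r : Fin 4 → ℕ)
    (hf : ∀ t, (J.filter fun i => f t i ≠ 0).card ≤ r t) (hr : ∑ t, r t ≤ 4) (g : ι → ℚ)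
    (hg : ∀ i, (∀ t, f t i = 0) → g i = 0) : (J.filter fun i => g i ≠ 0).card ≤ 4 := by
  have hsub : (J.filter fun i => g i ≠ 0) ⊆
      (Finset.univ : Finset (Fin 4)).biUnion fun t => J.filter fun i => f t i ≠ 0 := by
    intro i hi
    rw [Finset.mem_filter] at hi
    rw [Finset.mem_biUnion]
    by_contra hcon
    push Not at hcon
    apply hi.2
    apply hg
    intro t
    have h := hcon t (Finset.mem_univ t)
    rw [Finset.mem_filter] at h
    push Not at h
    exact h hi.1
  calc (J.filter fun i => g i ≠ 0).card ≤ _ := Finset.card_le_card hsub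
    _ ≤ ∑ t, (J.filter fun i => f t i ≠ 0).card := Finset.card_biUnion_le
    _ ≤ ∑ t, r t := Finset.sum_le_sum fun t _ => hf t
    _ ≤ 4 := hr

lemma card_sep_le {n N : ℕ} {X : Fin n → Fin n → Fin N × Bool → ℚ} (hX : Good X)
    (o d a b : Fin n) :
    ((Finset.univ.filter fun i => X o d (fl i) = 1).filter fun i => X a b i ≠ 0).card =
      (cnt X o d a b).card := by
  congr 1
  ext i
  rw [Finset.mem_filter, Finset.mem_filter, mem_cnt]
  constructor
  · rintro ⟨⟨_, h1⟩, h2⟩
    exact ⟨h1, (hX.val a b i).resolve_left h2⟩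
  · rintro ⟨h1, h2⟩
    refine ⟨⟨Finset.mem_univ _, h1⟩, ?_⟩
    rw [h2]
    norm_num

lemma card_bad {n N : ℕ} {X : Fin n → Fin n → Fin N × Bool → ℚ} (hX : Good X) (o d : Fin n)
    (hod : o ≠ d) : (bad X o d).card ≤ 4 * Module.finrank ℚ (Rs X) := by
  classical
  set G : Set (Fin N × Bool → ℚ) :=
    {g | ∃ k l, k ≠ o ∧ k ≠ d ∧ l ≠ o ∧ l ≠ d ∧ g = X o k - X k d - X o l + X l d} ∪
    {g | ∃ k l, k ≠ o ∧ k ≠ d ∧ l ≠ o ∧ l ≠ d ∧ k ≠ l ∧ g = X k l + X o d - X o k - X d l} with hG
  apply supp_rank G (Rs X) ?_ (Finset.univ.filter fun i => X o d (fl i) = 1)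
  · -- supports
    rintro g (⟨k, l, hko, hkd, hlo, hld, rfl⟩ | ⟨k, l, hko, hkd, hlo, hld, hkl, rfl⟩)
    · apply card_supp4 _ ![X o k, X k d, X o l, X l d] ![1, 1, 1, 1]
      · intro t
        fin_cases t
        · change ((Finset.univ.filter fun i => X o d (fl i) = 1).filter
            fun i => X o k i ≠ 0).card ≤ 1
          rw [card_sep_le hX]
          have := card_one hX d o k hod.symm hko hkd.symm
          have e : cnt X o d o k = cnt X d o k o := by
            ext i; rw [mem_cnt, mem_cnt, hX.sym o d, hX.sym o k]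
          rw [e, this]
        · change ((Finset.univ.filter fun i => X o d (fl i) = 1).filter
            fun i => X k d i ≠ 0).card ≤ 1
          rw [card_sep_le hX, card_one hX o d k hod hkd hko.symm]
        · change ((Finset.univ.filter fun i => X o d (fl i) = 1).filter
            fun i => X o l i ≠ 0).card ≤ 1
          rw [card_sep_le hX]
          have := card_one hX d o l hod.symm hlo hld.symm
          have e : cnt X o d o l = cnt X d o l o := by
            ext i; rw [mem_cnt, mem_cnt, hX.sym o d, hX.sym o l]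
          rw [e, this]
        · change ((Finset.univ.filter fun i => X o d (fl i) = 1).filter
            fun i => X l d i ≠ 0).card ≤ 1
          rw [card_sep_le hX, card_one hX o d l hod hld hlo.symm]
      · simp [Fin.sum_univ_four]
      · intro i h
        have e0 : X o k i = 0 := h 0
        have e1 : X k d i = 0 := h 1
        have e2 : X o l i = 0 := h 2
        have e3 : X l d i = 0 := h 3
        change X o k i - X k d i - X o l i + X l d i = 0
        rw [e0, e1, e2, e3]
        norm_num
    · apply card_supp4 _ ![X k l, X o d, X o k, X d l] ![2, 0, 1, 1]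
      · intro t
        fin_cases t
        · change ((Finset.univ.filter fun i => X o d (fl i) = 1).filter
            fun i => X k l i ≠ 0).card ≤ 2
          rw [card_sep_le hX]
          exact card_le_two hX o d k l hod hkl
        · change ((Finset.univ.filter fun i => X o d (fl i) = 1).filter
            fun i => X o d i ≠ 0).card ≤ 0
          rw [Nat.le_zero, Finset.card_eq_zero, Finset.filter_eq_empty_iff]
          intro i hi
          rw [Finset.mem_filter] at hi
          rw [disj hX hi.2]
          simp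
        · change ((Finset.univ.filter fun i => X o d (fl i) = 1).filter
            fun i => X o k i ≠ 0).card ≤ 1
          rw [card_sep_le hX]
          have := card_one hX d o k hod.symm hko hkd.symm
          have e : cnt X o d o k = cnt X d o k o := by
            ext i; rw [mem_cnt, mem_cnt, hX.sym o d, hX.sym o k]
          rw [e, this]
        · change ((Finset.univ.filter fun i => X o d (fl i) = 1).filter
            fun i => X d l i ≠ 0).card ≤ 1
          rw [card_sep_le hX]
          have e : cnt X o d d l = cnt X o d l d := by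
            ext i; rw [mem_cnt, mem_cnt, hX.sym d l]
          rw [e, card_one hX o d l hod hld hlo.symm]
      · simp [Fin.sum_univ_four]
      · intro i h
        have e0 : X k l i = 0 := h 0
        have e1 : X o d i = 0 := h 1
        have e2 : X o k i = 0 := h 2
        have e3 : X d l i = 0 := h 3
        change X k l i + X o d i - X o k i - X d l i = 0
        rw [e0, e1, e2, e3]
        norm_num
  · -- bad indices are in the support set
    intro i hi
    rw [mem_bad] at hi
    rw [Finset.mem_filter]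
    exact ⟨Finset.mem_univ _, hi.1⟩
  · -- covering
    intro i hi
    rw [mem_bad] at hi
    obtain ⟨h1, h2, h3, h4⟩ := hi
    by_contra hcon
    push Not at hcon
    have h5 := classify hX o d hod i (disj hX h1) (by
      intro k l hko hkd hlo hld
      exact hcon (X o k - X k d - X o l + X l d)
        (Or.inl ⟨k, l, hko, hkd, hlo, hld, rfl⟩)) (by
      intro k l hko hkd hlo hld hkl
      exact hcon (X k l + X o d - X o k - X d l)
        (Or.inr ⟨k, l, hko, hkd, hlo, hld, hkl, rfl⟩))
    rcases h5 with h | ⟨v, h⟩ | ⟨v, h⟩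
    · exact h2 h
    · exact h3 v h
    · exact h4 v h
  · -- membership in the relation space
    rintro g (⟨k, l, hko, hkd, hlo, hld, rfl⟩ | ⟨k, l, hko, hkd, hlo, hld, hkl, rfl⟩)
    · refine ⟨dl o k - dl k d - dl o l + dl l d, ⟨?_, ?_⟩, ?_⟩
      · change star _ = 0
        rw [map_add, map_sub, map_sub, star_dl, star_dl, star_dl, star_dl]
        abel
      · change dg _ = 0
        rw [map_add, map_sub, map_sub, dg_dl _ _ hko.symm, dg_dl _ _ hkd, dg_dl _ _ hlo.symm,
          dg_dl _ _ hld]
        simp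
      · rw [map_add, map_sub, map_sub, Phi_dl, Phi_dl, Phi_dl, Phi_dl]
    · refine ⟨dl k l + dl o d - dl o k - dl d l, ⟨?_, ?_⟩, ?_⟩
      · change star _ = 0
        rw [map_sub, map_sub, map_add, star_dl, star_dl, star_dl, star_dl]
        abel
      · change dg _ = 0
        rw [map_sub, map_sub, map_add, dg_dl _ _ hkl, dg_dl _ _ hod, dg_dl _ _ hko.symm,
          dg_dl _ _ hld.symm]
        simp
      · rw [map_sub, map_sub, map_add, Phi_dl, Phi_dl, Phi_dl, Phi_dl]

/-! ### Costars -/

open Classical in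
/-- Vertices with a costar class whose opposite class is neither empty nor the star. -/
noncomputable def Z0 {n N : ℕ} (X : Fin n → Fin n → Fin N × Bool → ℚ) : Finset (Fin n) :=
  Finset.univ.filter fun a => ∃ i, IsCostar X i a ∧ ¬ IsStar X (fl i) a ∧ ¬ IsEmp X (fl i)

lemma mem_Z0 {n N : ℕ} {X : Fin n → Fin n → Fin N × Bool → ℚ} {a : Fin n} :
    a ∈ Z0 X ↔ ∃ i, IsCostar X i a ∧ ¬ IsStar X (fl i) a ∧ ¬ IsEmp X (fl i) := by
  simp [Z0]

lemma exists_two {n : ℕ} (hn : 4 ≤ n) (u v : Fin n) :
    ∃ p q : Fin n, p ≠ q ∧ p ≠ u ∧ p ≠ v ∧ q ≠ u ∧ q ≠ v := by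
  have h1 : ({u, v} : Finset (Fin n)).card ≤ 2 := Finset.card_le_two
  have h2 : 1 < (Finset.univ \ ({u, v} : Finset (Fin n))).card := by
    rw [Finset.card_sdiff_of_subset (Finset.subset_univ _), Finset.card_univ, Fintype.card_fin]
    omega
  obtain ⟨p, hp, q, hq, hpq⟩ := Finset.one_lt_card.1 h2
  simp only [Finset.mem_sdiff, Finset.mem_univ, Finset.mem_insert, Finset.mem_singleton,
    true_and, not_or] at hp hq
  exact ⟨p, q, hpq, hp.1, hp.2, hq.1, hq.2⟩

lemma card_Z0 {n N : ℕ} {X : Fin n → Fin n → Fin N × Bool → ℚ} (hX : Good X) (hn : 4 ≤ n) :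
    (Z0 X).card ≤ 4 * Module.finrank ℚ (Rs X) + 2 := by
  classical
  obtain ⟨o, d, hod, _⟩ := exists_two hn ⟨0, by omega⟩ ⟨0, by omega⟩
  have hch : ∀ a ∈ Z0 X, ∃ i, IsCostar X i a ∧ ¬ IsStar X (fl i) a ∧ ¬ IsEmp X (fl i) := by
    intro a ha
    simpa [Z0] using ha
  rcases (Z0 X).eq_empty_or_nonempty with he | ⟨a0, ha0⟩
  · rw [he, Finset.card_empty]
    exact Nat.zero_le _
  have hne0 : Nonempty (Fin N × Bool) := ⟨(hch a0 ha0).choose⟩
  choose! f hf using hch
  have h1 : (Z0 X \ {o, d}).card ≤ (bad X o d).card := by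
    apply Finset.card_le_card_of_injOn (fun a => fl (f a))
    · intro a ha
      rw [Finset.mem_coe, Finset.mem_sdiff, Finset.mem_insert, Finset.mem_singleton] at ha
      push Not at ha
      obtain ⟨haZ, hao, had⟩ := ha
      obtain ⟨h2, h3, h4⟩ := hf a haZ
      have hdis : ∀ p q, p ≠ q → p ≠ a → q ≠ a → X p q (fl (f a)) = 0 := by
        intro p q hpq hpa hqa
        apply disj hX
        rw [fl_fl]
        exact (h2 p q hpq).2 ⟨hpa, hqa⟩
      show fl (f a) ∈ bad X o d
      rw [mem_bad]
      refine ⟨?_, h4, ?_, ?_⟩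
      · rw [fl_fl]
        exact (h2 o d hod).2 ⟨hao.symm, had.symm⟩
      · intro v hv
        by_cases hva : v = a
        · rw [hva] at hv
          exact h3 hv
        obtain ⟨p, q, hpq, hpa, hpv, hqa, hqv⟩ := exists_two hn a v
        have h5 : X v p (fl (f a)) = 1 := (hv v p hpv.symm).2 (Or.inl rfl)
        rw [hdis v p hpv.symm hva hpa] at h5
        norm_num at h5
      · intro v hv
        obtain ⟨p, q, hpq, hpa, hpv, hqa, hqv⟩ := exists_two hn a v
        have h5 : X p q (fl (f a)) = 1 := (hv p q hpq).2 ⟨hpv, hqv⟩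
        rw [hdis p q hpq hpa hqa] at h5
        norm_num at h5
    · intro a ha a' ha' h
      rw [Finset.mem_coe, Finset.mem_sdiff] at ha ha'
      have h2 : f a = f a' := by
        have := congrArg fl h
        simpa only [fl_fl] using this
      by_contra hne
      obtain ⟨p, q, hpq, hpa, hpv, hqa, hqv⟩ := exists_two hn a a'
      have h3 := (hf a ha.1).1 a' p hpv.symm
      have h4 := (hf a' ha'.1).1 a' p hpv.symm
      rw [h2] at h3
      have h5 := h3.2 ⟨fun e => hne e.symm, hpa⟩
      exact (h4.1 h5).1 rfl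
  have h2 := card_bad hX o d hod
  have h3 : (Z0 X).card ≤ (Z0 X \ {o, d}).card + ({o, d} : Finset (Fin n)).card := by
    have := Finset.le_card_sdiff ({o, d} : Finset (Fin n)) (Z0 X)
    omega
  have h4 : ({o, d} : Finset (Fin n)).card ≤ 2 := Finset.card_le_two
  omega

/-! ### The choice of a symbol for each coordinate -/

lemma exists_choice {N : ℕ} {α : Type} (S : Finset α) (p : α → Finset (Fin N × Bool)) (k : ℕ)
    (hk : ∀ a ∈ S, (p a).card ≤ k)
    (hcons : ∀ a ∈ S, ∀ i ∈ p a, fl i ∉ p a) :
    ∃ x : Fin N → Bool, S.card ≤ (S.filter fun a => ∀ i ∈ p a, x i.1 = !i.2).card * 2 ^ k := by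
  classical
  have hone : ∀ a ∈ S, 2 ^ N ≤
      (Finset.univ.filter fun x : Fin N → Bool => ∀ i ∈ p a, x i.1 = !i.2).card * 2 ^ k := by
    intro a ha
    have h1 : (Finset.univ.filter fun x : Fin N → Bool => ∀ i ∈ p a, x i.1 = !i.2) =
        Fintype.piFinset fun c => Finset.univ.filter fun s : Bool =>
          ∀ i ∈ p a, i.1 = c → s = !i.2 := by
      ext x
      simp only [Finset.mem_filter, Finset.mem_univ, true_and, Fintype.mem_piFinset]
      constructor
      · intro h c i hi hc
        rw [← hc]
        exact h i hi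
      · intro h i hi
        exact h i.1 i hi rfl
    rw [h1, Fintype.card_piFinset]
    have h2 : (p a).card = ∑ c : Fin N, ((p a).filter fun i => i.1 = c).card :=
      Finset.card_eq_sum_card_fiberwise (fun i _ => Finset.mem_univ _)
    have h3 : ∀ c : Fin N, 2 ≤ (Finset.univ.filter fun s : Bool =>
        ∀ i ∈ p a, i.1 = c → s = !i.2).card * 2 ^ ((p a).filter fun i => i.1 = c).card := by
      intro c
      by_cases hc : ∃ i ∈ p a, i.1 = c
      · obtain ⟨i, hi, hic⟩ := hc
        have h4 : 1 ≤ ((p a).filter fun i => i.1 = c).card :=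
          Finset.card_pos.2 ⟨i, Finset.mem_filter.2 ⟨hi, hic⟩⟩
        have h5 : 1 ≤ (Finset.univ.filter fun s : Bool =>
            ∀ i ∈ p a, i.1 = c → s = !i.2).card := by
          apply Finset.card_pos.2
          refine ⟨!i.2, Finset.mem_filter.2 ⟨Finset.mem_univ _, ?_⟩⟩
          intro j hj hjc
          by_contra hne
          apply hcons a ha i hi
          have : fl i = j := by
            unfold fl
            apply Prod.ext
            · exact hic.trans hjc.symm
            · change (!i.2) = j.2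
              revert hne
              cases i.2 <;> cases j.2 <;> simp
          rw [this]
          exact hj
        calc 2 = 1 * 2 ^ 1 := by norm_num
          _ ≤ _ := Nat.mul_le_mul h5 (Nat.pow_le_pow_right (by norm_num) h4)
      · push Not at hc
        have h4 : (Finset.univ.filter fun s : Bool =>
            ∀ i ∈ p a, i.1 = c → s = !i.2) = Finset.univ := by
          apply Finset.filter_true_of_mem
          intro s _ i hi hic
          exact absurd hic (hc i hi)
        rw [h4, Finset.card_univ, Fintype.card_bool]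
        have := Nat.one_le_two_pow (n := ((p a).filter fun i => i.1 = c).card)
        omega
    calc 2 ^ N = ∏ _c : Fin N, 2 := by simp
      _ ≤ ∏ c : Fin N, ((Finset.univ.filter fun s : Bool =>
        ∀ i ∈ p a, i.1 = c → s = !i.2).card * 2 ^ ((p a).filter fun i => i.1 = c).card) :=
          Finset.prod_le_prod' fun c _ => h3 c
      _ = (∏ c : Fin N, (Finset.univ.filter fun s : Bool =>
        ∀ i ∈ p a, i.1 = c → s = !i.2).card) * 2 ^ (p a).card := by
          rw [Finset.prod_mul_distrib, Finset.prod_pow_eq_pow_sum, ← h2]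
      _ ≤ _ := Nat.mul_le_mul le_rfl (Nat.pow_le_pow_right (by norm_num) (hk a ha))
  by_contra hcon
  push Not at hcon
  have h1 : ∑ x : Fin N → Bool, (S.filter fun a => ∀ i ∈ p a, x i.1 = !i.2).card =
      ∑ a ∈ S, (Finset.univ.filter fun x : Fin N → Bool => ∀ i ∈ p a, x i.1 = !i.2).card := by
    simp only [Finset.card_filter]
    rw [Finset.sum_comm]
  have h2 : (∑ x : Fin N → Bool, (S.filter fun a => ∀ i ∈ p a, x i.1 = !i.2).card) * 2 ^ k <
      2 ^ N * S.card := by
    rw [Finset.sum_mul]
    calc _ < ∑ _x : Fin N → Bool, S.card :=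
          Finset.sum_lt_sum_of_nonempty Finset.univ_nonempty fun x _ => hcon x
      _ = 2 ^ N * S.card := by simp
  have h3 : 2 ^ N * S.card ≤
      (∑ x : Fin N → Bool, (S.filter fun a => ∀ i ∈ p a, x i.1 = !i.2).card) * 2 ^ k := by
    rw [h1, Finset.sum_mul]
    calc 2 ^ N * S.card = ∑ _a ∈ S, 2 ^ N := by
          rw [Finset.sum_const, smul_eq_mul, mul_comm]
      _ ≤ _ := Finset.sum_le_sum fun a ha => hone a ha
  exact absurd h3 (not_le.2 h2)

/-! ### A chain in a tournament -/

lemma exists_chain {α : Type} (β : α → α → Prop) (t : ℕ) :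
    ∀ A : Finset α, (∀ a ∈ A, ∀ a' ∈ A, a ≠ a' → β a a' ∨ β a' a) → 2 ^ t ≤ A.card →
      ∃ l : List α, l.length = t + 1 ∧ l.Pairwise (fun a a' => a ≠ a' ∧ β a a') ∧
        ∀ a ∈ l, a ∈ A := by
  classical
  induction t with
  | zero =>
    intro A _ hA
    obtain ⟨a, ha⟩ := Finset.card_pos.1 (show 0 < A.card by simpa using hA)
    exact ⟨[a], rfl, List.pairwise_singleton _ _, fun b hb => by
      rw [List.mem_singleton] at hb
      rw [hb]
      exact ha⟩
  | succ t ih =>
    intro A htot hA
    have hpos : 0 < 2 ^ (t + 1) := by positivity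
    obtain ⟨v, hv⟩ := Finset.card_pos.1 (lt_of_lt_of_le hpos hA)
    have h1 : ((A.erase v).filter fun a => β v a).card +
        ((A.erase v).filter fun a => ¬ β v a).card = (A.erase v).card :=
      Finset.card_filter_add_card_filter_not _
    rw [Finset.card_erase_of_mem hv] at h1
    have h2 : 2 ^ (t + 1) = 2 * 2 ^ t := by rw [pow_succ]; ring
    rcases le_or_gt (2 ^ t) ((A.erase v).filter fun a => β v a).card with h3 | h3
    · obtain ⟨l, hl1, hl2, hl3⟩ := ih ((A.erase v).filter fun a => β v a) (by
        intro a ha a' ha' hne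
        exact htot a (Finset.mem_of_mem_erase (Finset.mem_filter.1 ha).1) a'
          (Finset.mem_of_mem_erase (Finset.mem_filter.1 ha').1) hne) h3
      refine ⟨v :: l, by rw [List.length_cons, hl1], ?_, ?_⟩
      · rw [List.pairwise_cons]
        refine ⟨?_, hl2⟩
        intro a ha
        have h4 := Finset.mem_filter.1 (hl3 a ha)
        exact ⟨(Finset.ne_of_mem_erase h4.1).symm, h4.2⟩
      · intro a ha
        rcases List.mem_cons.1 ha with rfl | ha
        · exact hv
        · exact Finset.mem_of_mem_erase (Finset.mem_filter.1 (hl3 a ha)).1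
    · have h4 : 2 ^ t ≤ ((A.erase v).filter fun a => ¬ β v a).card := by omega
      obtain ⟨l, hl1, hl2, hl3⟩ := ih ((A.erase v).filter fun a => ¬ β v a) (by
        intro a ha a' ha' hne
        exact htot a (Finset.mem_of_mem_erase (Finset.mem_filter.1 ha).1) a'
          (Finset.mem_of_mem_erase (Finset.mem_filter.1 ha').1) hne) h4
      refine ⟨l ++ [v], by rw [List.length_append, hl1]; rfl, ?_, ?_⟩
      · rw [List.pairwise_append]
        refine ⟨hl2, List.pairwise_singleton _ _, ?_⟩
        intro a ha b hb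
        rw [List.mem_singleton] at hb
        subst hb
        have h5 := Finset.mem_filter.1 (hl3 a ha)
        have h6 := Finset.ne_of_mem_erase h5.1
        refine ⟨h6, ?_⟩
        rcases htot a (Finset.mem_of_mem_erase h5.1) b hv h6 with h7 | h7
        · exact h7
        · exact absurd h7 h5.2
      · intro a ha
        rcases List.mem_append.1 ha with ha | ha
        · exact Finset.mem_of_mem_erase (Finset.mem_filter.1 (hl3 a ha)).1
        · rw [List.mem_singleton] at ha
          rw [ha]
          exact hv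

/-! ### The relation between two vertices -/

/-- The edge `{a, b}` is separated from the star of `a'`. -/
def Rel {n N : ℕ} (X : Fin n → Fin n → Fin N × Bool → ℚ) (b a a' : Fin n) : Prop :=
  ∃ i, X a b (fl i) = 1 ∧ IsStar X i a'

lemma half {n N : ℕ} {X : Fin n → Fin n → Fin N × Bool → ℚ} (hX : Good X) (b a a' : Fin n)
    (hab : a ≠ b) (hab' : a' ≠ b) (hZ : a ∉ Z0 X) (i : Fin N × Bool)
    (h1 : X a b (fl i) = 1) (h2 : X a' b i = 1) (h3 : i ∉ bad X a b) :
    IsStar X i a' ∨ IsStar X (fl i) a := by
  rw [mem_bad] at h3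
  have h4 : ¬ IsEmp X i := by
    intro h
    rw [h a' b] at h2
    norm_num at h2
  have h0 : X a b i ≠ 1 := by
    rw [disj hX h1]
    norm_num
  by_cases h5 : ∃ v, IsStar X i v
  · obtain ⟨v, hv⟩ := h5
    left
    have h6 := (hv a' b hab').1 h2
    have h7 : ¬ (a = v ∨ b = v) := fun h => h0 ((hv a b hab).2 h)
    push Not at h7
    rcases h6 with h6 | h6
    · rw [h6]; exact hv
    · exact absurd h6 h7.2
  · by_cases h6 : ∃ v, IsCostar X i v
    · obtain ⟨v, hv⟩ := h6
      right
      have h7 := (hv a' b hab').1 h2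
      have h8 : ¬ (a ≠ v ∧ b ≠ v) := fun h => h0 ((hv a b hab).2 h)
      have h9 : a = v := by
        by_contra hne
        exact h8 ⟨hne, h7.2⟩
      subst h9
      by_contra hns
      apply hZ
      rw [mem_Z0]
      refine ⟨i, hv, hns, ?_⟩
      intro he
      rw [he a b] at h1
      norm_num at h1
    · exfalso
      push Not at h5 h6
      exact h3 ⟨h1, h4, h5, h6⟩

lemma total {n N : ℕ} {X : Fin n → Fin n → Fin N × Bool → ℚ} (hX : Good X) (b a a' : Fin n)
    (hab : a ≠ b) (hab' : a' ≠ b) (haa : a ≠ a') (hZ : a ∉ Z0 X) (hZ' : a' ∉ Z0 X)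
    (x : Fin N → Bool) (hx : ∀ i ∈ bad X a b, x i.1 = !i.2)
    (hx' : ∀ i ∈ bad X a' b, x i.1 = !i.2) : Rel X b a a' ∨ Rel X b a' a := by
  have h1 : 0 < (cnt X a b a' b).card := by
    rw [card_one hX a b a' hab hab' haa]
    norm_num
  obtain ⟨i, hi⟩ := Finset.card_pos.1 h1
  rw [mem_cnt] at hi
  have hfin : IsStar X i a' ∨ IsStar X (fl i) a → Rel X b a a' ∨ Rel X b a' a := by
    rintro (h | h)
    · exact Or.inl ⟨i, hi.1, h⟩
    · exact Or.inr ⟨fl i, by rw [fl_fl]; exact hi.2, h⟩
  apply hfin
  by_cases h2 : i ∈ bad X a b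
  · have h3 : fl i ∉ bad X a' b := by
      intro h3
      have h4 := hx i h2
      have h5 := hx' (fl i) h3
      unfold fl at h5
      dsimp only at h5
      rw [h4] at h5
      revert h5
      cases i.2 <;> simp
    have h4 := half hX b a' a hab' hab hZ' (fl i) (by rw [fl_fl]; exact hi.2) hi.1 h3
    rw [fl_fl] at h4
    exact h4.symm
  · exact half hX b a a' hab hab' hZ i hi.1 hi.2 h2

/-! ### The functional of a star -/

open Classical in
/-- Sum over the classes opposite to the star of `v`. -/
noncomputable def Y {n N : ℕ} (X : Fin n → Fin n → Fin N × Bool → ℚ) (v : Fin n) :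
    (Fin N × Bool → ℚ) →ₗ[ℚ] ℚ where
  toFun g := ∑ j ∈ Finset.univ.filter fun j => IsStar X (fl j) v, g j
  map_add' g g' := by
    simp only [Pi.add_apply, Finset.sum_add_distrib]
  map_smul' r g := by
    simp only [Pi.smul_apply, smul_eq_mul, RingHom.id_apply, Finset.mul_sum]

open Classical in
/-- Classes containing `{p, q}` opposite to the star of `v`. -/
noncomputable def TT {n N : ℕ} (X : Fin n → Fin n → Fin N × Bool → ℚ) (v p q : Fin n) :
    Finset (Fin N × Bool) :=
  Finset.univ.filter fun j => IsStar X (fl j) v ∧ X p q j = 1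

lemma mem_TT {n N : ℕ} {X : Fin n → Fin n → Fin N × Bool → ℚ} {v p q : Fin n}
    {j : Fin N × Bool} : j ∈ TT X v p q ↔ IsStar X (fl j) v ∧ X p q j = 1 := by
  simp [TT]

lemma Y_eq {n N : ℕ} {X : Fin n → Fin n → Fin N × Bool → ℚ} (hX : Good X) (v p q : Fin n) :
    Y X v (X p q) = ((TT X v p q).card : ℚ) := by
  classical
  change ∑ j ∈ Finset.univ.filter (fun j => IsStar X (fl j) v), X p q j = _
  have h : TT X v p q = (Finset.univ.filter fun j => IsStar X (fl j) v).filter
      fun j => X p q j = 1 := by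
    ext j
    rw [mem_TT, Finset.mem_filter, Finset.mem_filter]
    simp
  rw [h, Finset.card_filter, Nat.cast_sum]
  apply Finset.sum_congr rfl
  intro j _
  rcases hX.val p q j with h | h <;> simp [h]

lemma Y_zero_left {n N : ℕ} {X : Fin n → Fin n → Fin N × Bool → ℚ} (hX : Good X) (p q : Fin n)
    (hpq : p ≠ q) : Y X p (X p q) = 0 := by
  rw [Y_eq hX, Nat.cast_eq_zero, Finset.card_eq_zero]
  apply Finset.eq_empty_of_forall_notMem
  intro j hj
  rw [mem_TT] at hj
  have h1 := disj hX ((hj.1 p q hpq).2 (Or.inl rfl))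
  rw [h1] at hj
  norm_num at hj

lemma TT_sub {n N : ℕ} {X : Fin n → Fin n → Fin N × Bool → ℚ} (b v p q : Fin n)
    (hv : v ≠ b) : TT X v p q ⊆ cnt X v b p q := by
  intro j hj
  rw [mem_TT] at hj
  rw [mem_cnt]
  exact ⟨(hj.1 v b hv).2 (Or.inl rfl), hj.2⟩

lemma conflict {n N : ℕ} {X : Fin n → Fin n → Fin N × Bool → ℚ} (hX : Good X) (v p : Fin n)
    (hvp : v ≠ p) (j : Fin N × Bool) (h1 : IsStar X (fl j) v) (h2 : IsStar X j p) : False := by
  have h3 := disj hX ((h1 v p hvp).2 (Or.inl rfl))
  rw [(h2 v p hvp).2 (Or.inr rfl)] at h3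
  norm_num at h3

lemma Y_one {n N : ℕ} {X : Fin n → Fin n → Fin N × Bool → ℚ} (hX : Good X) (b v p : Fin n)
    (hv : v ≠ b) (hp : p ≠ b) (hvp : v ≠ p) (h : Rel X b p v) : Y X v (X p b) = 1 := by
  rw [Y_eq hX]
  have h1 : (TT X v p b).card ≤ 1 := by
    rw [← card_one hX v b p hv hp hvp]
    exact Finset.card_le_card (TT_sub b v p b hv)
  obtain ⟨i, hi1, hi2⟩ := h
  have h2 : 0 < (TT X v p b).card := by
    apply Finset.card_pos.2
    refine ⟨fl i, ?_⟩
    rw [mem_TT, fl_fl]
    exact ⟨hi2, hi1⟩
  have h3 : (TT X v p b).card = 1 := by omega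
  rw [h3]
  norm_num

lemma Y_zero {n N : ℕ} {X : Fin n → Fin n → Fin N × Bool → ℚ} (hX : Good X) (b v p : Fin n)
    (hv : v ≠ b) (hp : p ≠ b) (hvp : v ≠ p) (h : Rel X b v p) : Y X v (X p b) = 0 := by
  rw [Y_eq hX, Nat.cast_eq_zero, Finset.card_eq_zero]
  apply Finset.eq_empty_of_forall_notMem
  intro j hj
  obtain ⟨i, hi1, hi2⟩ := h
  have h1 : j ∈ cnt X v b p b := TT_sub b v p b hv hj
  have h2 : i ∈ cnt X v b p b := by
    rw [mem_cnt]
    exact ⟨hi1, (hi2 p b hp).2 (Or.inl rfl)⟩
  have h3 := Finset.card_le_one.1 (card_one hX v b p hv hp hvp).le j h1 i h2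
  subst h3
  exact conflict hX v p hvp j (mem_TT.1 hj).1 hi2

lemma Y_zero' {n N : ℕ} {X : Fin n → Fin n → Fin N × Bool → ℚ} (hX : Good X) (b v p q : Fin n)
    (hv : v ≠ b) (hvp : v ≠ p) (hvq : v ≠ q) (hpq : p ≠ q)
    (h1 : Rel X b v p) (h2 : Rel X b v q) : Y X v (X p q) = 0 := by
  rw [Y_eq hX, Nat.cast_eq_zero, Finset.card_eq_zero]
  apply Finset.eq_empty_of_forall_notMem
  intro j hj
  obtain ⟨i1, hi1, hi1'⟩ := h1
  obtain ⟨i2, hi2, hi2'⟩ := h2
  have m0 : j ∈ cnt X v b p q := TT_sub b v p q hv hj
  have m1 : i1 ∈ cnt X v b p q := by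
    rw [mem_cnt]
    exact ⟨hi1, (hi1' p q hpq).2 (Or.inl rfl)⟩
  have m2 : i2 ∈ cnt X v b p q := by
    rw [mem_cnt]
    exact ⟨hi2, (hi2' p q hpq).2 (Or.inr rfl)⟩
  have n1 : j ≠ i1 := by
    rintro rfl
    exact conflict hX v p hvp j (mem_TT.1 hj).1 hi1'
  have n2 : j ≠ i2 := by
    rintro rfl
    exact conflict hX v q hvq j (mem_TT.1 hj).1 hi2'
  have n3 : i1 ≠ i2 := by
    rintro rfl
    have h3 := (hi1' v p hvp).2 (Or.inr rfl)
    rcases (hi2' v p hvp).1 h3 with h | h
    · exact hvq h
    · exact hpq h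
  have h3 : ({j, i1, i2} : Finset (Fin N × Bool)).card ≤ (cnt X v b p q).card := by
    apply Finset.card_le_card
    intro k hk
    simp only [Finset.mem_insert, Finset.mem_singleton] at hk
    rcases hk with rfl | rfl | rfl
    · exact m0
    · exact m1
    · exact m2
  have h4 : ({j, i1, i2} : Finset (Fin N × Bool)).card = 3 := by
    rw [Finset.card_eq_three]
    exact ⟨j, i1, i2, n1, n2, n3, rfl⟩
  have h5 := card_le_two hX v b p q hv hpq
  omega

lemma chain_bound {n N : ℕ} {X : Fin n → Fin n → Fin N × Bool → ℚ} (hX : Good X) (b : Fin n)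
    (m : ℕ) (c : ℕ → Fin n) (hb : ∀ i < m + 2, c i ≠ b)
    (hne : ∀ i j, i < j → j < m + 2 → c i ≠ c j)
    (hrel : ∀ i j, i < j → j < m + 2 → Rel X b (c i) (c j)) :
    m ≤ Module.finrank ℚ (Rs X) := by
  classical
  let Dv : Fin m → (Fin N × Bool → ℚ) := fun i =>
    X (c i) b - X (c i) (c (i + 1)) + X (c (i + 1)) (c (i + 2)) - X (c (i + 2)) b
  have hmem : ∀ i, Dv i ∈ Rs X := by
    intro i
    have hi := i.2
    have d1 := hb i (by omega)
    have d2 := hb (i + 2) (by omega)
    have d3 := hne i (i + 1) (by omega) (by omega)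
    have d4 := hne (i + 1) (i + 2) (by omega) (by omega)
    refine ⟨dl (c i) b - dl (c i) (c (i + 1)) + dl (c (i + 1)) (c (i + 2)) - dl (c (i + 2)) b,
      ⟨?_, ?_⟩, ?_⟩
    · change star _ = 0
      rw [map_sub, map_add, map_sub, star_dl, star_dl, star_dl, star_dl]
      abel
    · change dg _ = 0
      rw [map_sub, map_add, map_sub, dg_dl _ _ d1, dg_dl _ _ d3, dg_dl _ _ d4, dg_dl _ _ d2]
      simp
    · rw [map_sub, map_add, map_sub, Phi_dl, Phi_dl, Phi_dl, Phi_dl]
  -- values of the functionals
  have y1 : ∀ k i, k < m + 2 → k < i → i < m + 2 → Y X (c k) (X (c i) b) = 0 := by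
    intro k i hk hki hi
    exact Y_zero hX b (c k) (c i) (hb k hk) (hb i hi) (hne k i hki hi) (hrel k i hki hi)
  have y2 : ∀ k, k < m + 2 → Y X (c k) (X (c k) b) = 0 := by
    intro k hk
    exact Y_zero_left hX (c k) b (hb k hk)
  have y3 : ∀ k i, i < k → k < m + 2 → Y X (c k) (X (c i) b) = 1 := by
    intro k i hik hk
    exact Y_one hX b (c k) (c i) (hb k hk) (hb i (by omega)) (hne i k hik hk).symm (hrel i k hik hk)
  have y4 : ∀ k i j, k < i → i < j → j < m + 2 → Y X (c k) (X (c i) (c j)) = 0 := by
    intro k i j hki hij hj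
    exact Y_zero' hX b (c k) (c i) (c j) (hb k (by omega)) (hne k i hki (by omega))
      (hne k j (by omega) hj) (hne i j hij hj) (hrel k i hki (by omega)) (hrel k j (by omega) hj)
  have y5 : ∀ k i, k < i → i < m + 2 → Y X (c k) (X (c k) (c i)) = 0 := by
    intro k i hki hi
    exact Y_zero_left hX (c k) (c i) (hne k i hki hi)
  have y6 : ∀ k i, i < k → k < m + 2 → Y X (c k) (X (c i) (c k)) = 0 := by
    intro k i hik hk
    have : X (c i) (c k) = X (c k) (c i) := by
      ext j
      exact hX.sym _ _ _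
    rw [this]
    exact Y_zero_left hX (c k) (c i) (hne i k hik hk).symm
  have z1 : ∀ i : Fin m, Y X (c (i + 1)) (Dv i) = 1 := by
    intro i
    have hi := i.2
    change Y X (c (i + 1)) (X (c i) b - X (c i) (c (i + 1)) + X (c (i + 1)) (c (i + 2))
      - X (c (i + 2)) b) = 1
    rw [map_sub, map_add, map_sub, y3 (i + 1) i (by omega) (by omega),
      y6 (i + 1) i (by omega) (by omega), y5 (i + 1) (i + 2) (by omega) (by omega),
      y1 (i + 1) (i + 2) (by omega) (by omega) (by omega)]
    norm_num
  have z2 : ∀ i j : Fin m, i < j → Y X (c (i + 1)) (Dv j) = 0 := by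
    intro i j hij
    have hi := i.2
    have hj := j.2
    have hij' : (i : ℕ) < j := hij
    change Y X (c (i + 1)) (X (c j) b - X (c j) (c (j + 1)) + X (c (j + 1)) (c (j + 2))
      - X (c (j + 2)) b) = 0
    rw [map_sub, map_add, map_sub, y1 (i + 1) (j + 2) (by omega) (by omega) (by omega),
      y4 (i + 1) (j + 1) (j + 2) (by omega) (by omega) (by omega)]
    rcases Nat.lt_or_ge (i + 1) j with h | h
    · rw [y1 (i + 1) j (by omega) h (by omega), y4 (i + 1) j (j + 1) h (by omega) (by omega)]
      norm_num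
    · have he : (i : ℕ) + 1 = j := by omega
      rw [he, y2 j (by omega), y5 j (j + 1) (by omega) (by omega)]
      norm_num
  have hli : LinearIndependent ℚ Dv := by
    rw [Fintype.linearIndependent_iff]
    intro g hg
    have key : ∀ k : ℕ, ∀ hk : k < m, g ⟨k, hk⟩ = 0 := by
      intro k
      induction k using Nat.strong_induction_on with
      | _ k ih =>
        intro hk
        have h1 := congrArg (Y X (c (k + 1))) hg
        rw [map_sum, map_zero, Finset.sum_eq_single (⟨k, hk⟩ : Fin m)] at h1
        · rw [map_smul, z1 ⟨k, hk⟩, smul_eq_mul, mul_one] at h1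
          exact h1
        · intro j _ hj
          rw [map_smul]
          rcases lt_trichotomy (j : ℕ) k with h | h | h
          · have := ih j h j.2
            rw [show g j = 0 from this, zero_smul]
          · exact absurd (Fin.ext h) hj
          · rw [z2 ⟨k, hk⟩ j h, smul_zero]
        · intro h
          exact absurd (Finset.mem_univ _) h
    intro i
    exact key i i.2
  have h1 : Module.finrank ℚ (Submodule.span ℚ (Set.range Dv)) = m := by
    rw [finrank_span_eq_card hli, Fintype.card_fin]
  rw [← h1]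
  apply Submodule.finrank_mono
  rw [Submodule.span_le]
  rintro _ ⟨i, rfl⟩
  exact hmem i

/-! ### There is a relation -/

open Classical in
/-- Number of coordinates `star | costar` of a vertex. -/
noncomputable def mult {n N : ℕ} (X : Fin n → Fin n → Fin N × Bool → ℚ) (u : Fin n) :
    Finset (Fin N × Bool) :=
  Finset.univ.filter fun i => IsStar X (fl i) u ∧ IsCostar X i u

lemma proper_class {n N : ℕ} {X : Fin n → Fin n → Fin N × Bool → ℚ} (hX : Good X)
    (hr : Module.finrank ℚ (Rs X) = 0) (p q p' q' : Fin n) (hpq : p ≠ q)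
    (i : Fin N × Bool) (h1 : X p q (fl i) = 1) (h2 : X p' q' i = 1) :
    (∃ v, IsStar X i v) ∨ ∃ v, IsCostar X i v := by
  have h3 := card_bad hX p q hpq
  rw [hr, mul_zero, Nat.le_zero, Finset.card_eq_zero] at h3
  have h4 : i ∉ bad X p q := by
    rw [h3]
    exact Finset.notMem_empty _
  by_contra hcon
  push Not at hcon
  apply h4
  rw [mem_bad]
  refine ⟨h1, ?_, hcon.1, hcon.2⟩
  intro he
  rw [he p' q'] at h2
  norm_num at h2

lemma exists_costar {n N : ℕ} {X : Fin n → Fin n → Fin N × Bool → ℚ} (hX : Good X) (hn : 4 ≤ n)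
    (hr : Module.finrank ℚ (Rs X) = 0) (p q p' q' : Fin n) (hpq : p ≠ q) (hpq' : p' ≠ q')
    (i : Fin N × Bool) (h1 : X p q (fl i) = 1) (h2 : X p' q' i = 1) :
    (∃ v, IsStar X i v ∧ IsCostar X (fl i) v) ∨ ∃ v, IsCostar X i v ∧ IsStar X (fl i) v := by
  have h3 := proper_class hX hr p q p' q' hpq i h1 h2
  have h4 := proper_class hX hr p' q' p q hpq' (fl i) (by rw [fl_fl]; exact h2) h1
  have hsc : ∀ (j : Fin N × Bool) (v w : Fin n), IsStar X j v → IsCostar X (fl j) w → v = w := by
    intro j v w hv hw
    by_contra hvw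
    obtain ⟨x, y, hxy, hxv, hxw, _⟩ := exists_two hn v w
    have h5 := disj hX ((hw v x hxv.symm).2 ⟨hvw, hxw⟩)
    rw [(hv v x hxv.symm).2 (Or.inl rfl)] at h5
    norm_num at h5
  rcases h3 with ⟨v, hv⟩ | ⟨v, hv⟩ <;> rcases h4 with ⟨w, hw⟩ | ⟨w, hw⟩
  · exfalso
    by_cases hvw : v = w
    · subst hvw
      obtain ⟨x, y, hxy, hxv, _⟩ := exists_two hn v v
      have h5 := disj hX ((hw v x hxv.symm).2 (Or.inl rfl))
      rw [(hv v x hxv.symm).2 (Or.inl rfl)] at h5
      norm_num at h5
    · exact conflict hX w v (fun e => hvw e.symm) i hw hv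
  · left
    have := hsc i v w hv hw
    subst this
    exact ⟨v, hv, hw⟩
  · right
    have := hsc (fl i) w v hw (by rw [fl_fl]; exact hv)
    subst this
    exact ⟨w, hv, hw⟩
  · exfalso
    obtain ⟨x, y, hxy, hxv, hxw, hyv, hyw⟩ := exists_two hn v w
    have h5 := disj hX ((hw x y hxy).2 ⟨hxw, hyw⟩)
    rw [(hv x y hxy).2 ⟨hxv, hyv⟩] at h5
    norm_num at h5

lemma mult_add {n N : ℕ} {X : Fin n → Fin n → Fin N × Bool → ℚ} (hX : Good X) (hn : 4 ≤ n)
    (hr : Module.finrank ℚ (Rs X) = 0) (a b : Fin n) (hab : a ≠ b) :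
    (mult X a).card + (mult X b).card = 1 := by
  classical
  obtain ⟨v, y, hvy, hva, hvb, _⟩ := exists_two hn a b
  have h1 := card_one hX a v b hva.symm hvb.symm hab
  have h2 : cnt X a v b v = mult X a ∪ (mult X b).image fl := by
    ext i
    rw [mem_cnt, Finset.mem_union, Finset.mem_image]
    constructor
    · rintro ⟨h3, h4⟩
      rcases exists_costar hX hn hr a v b v hva.symm hvb.symm i h3 h4 with
        ⟨w, hw1, hw2⟩ | ⟨w, hw1, hw2⟩
      · right
        have h5 := (hw1 b v hvb.symm).1 h4
        have h6 := (hw2 a v hva.symm).1 h3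
        have h7 : b = w := by
          rcases h5 with h | h
          · exact h
          · exact absurd h h6.2
        subst h7
        refine ⟨fl i, ?_, fl_fl i⟩
        unfold mult
        rw [Finset.mem_filter, fl_fl]
        exact ⟨Finset.mem_univ _, hw1, hw2⟩
      · left
        have h5 := (hw1 b v hvb.symm).1 h4
        have h6 := (hw2 a v hva.symm).1 h3
        have h7 : a = w := by
          rcases h6 with h | h
          · exact h
          · exact absurd h h5.2
        subst h7
        unfold mult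
        rw [Finset.mem_filter]
        exact ⟨Finset.mem_univ _, hw2, hw1⟩
    · rintro (h | ⟨j, hj, rfl⟩)
      · unfold mult at h
        rw [Finset.mem_filter] at h
        exact ⟨(h.2.1 a v hva.symm).2 (Or.inl rfl), (h.2.2 b v hvb.symm).2 ⟨hab.symm, hva⟩⟩
      · unfold mult at hj
        rw [Finset.mem_filter] at hj
        rw [fl_fl]
        exact ⟨(hj.2.2 a v hva.symm).2 ⟨hab, hvb⟩, (hj.2.1 b v hvb.symm).2 (Or.inl rfl)⟩
  have h3 : Disjoint (mult X a) ((mult X b).image fl) := by
    rw [Finset.disjoint_left]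
    intro i hi hi'
    rw [Finset.mem_image] at hi'
    obtain ⟨j, hj, rfl⟩ := hi'
    unfold mult at hi hj
    rw [Finset.mem_filter] at hi hj
    rw [fl_fl] at hi
    -- `j` is the star of `a` and the costar of `b`
    obtain ⟨z, z', hz, hza, hzb, hza', hzb'⟩ := exists_two hn a b
    have := (hi.2.1 z z' hz).1 ((hj.2.2 z z' hz).2 ⟨hzb, hzb'⟩)
    rcases this with h | h
    · exact hza h
    · exact hza' h
  rw [h2, Finset.card_union_of_disjoint h3, Finset.card_image_of_injective] at h1
  · exact h1
  · intro i j h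
    have := congrArg fl h
    simpa only [fl_fl] using this

lemma one_le_rank {n N : ℕ} {X : Fin n → Fin n → Fin N × Bool → ℚ} (hX : Good X) (hn : 4 ≤ n) :
    1 ≤ Module.finrank ℚ (Rs X) := by
  by_contra hcon
  have hr : Module.finrank ℚ (Rs X) = 0 := by omega
  have h1 := mult_add hX hn hr ⟨0, by omega⟩ ⟨1, by omega⟩ (by simp [Fin.ext_iff])
  have h2 := mult_add hX hn hr ⟨1, by omega⟩ ⟨2, by omega⟩ (by simp [Fin.ext_iff])
  have h3 := mult_add hX hn hr ⟨0, by omega⟩ ⟨2, by omega⟩ (by simp [Fin.ext_iff])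
  omega

lemma main_bound {n N : ℕ} {X : Fin n → Fin n → Fin N × Bool → ℚ} (hX : Good X) (hn : 4 ≤ n) :
    n < 2 ^ (5 * Module.finrank ℚ (Rs X) + 2) := by
  classical
  have hr1 := one_le_rank hX hn
  set r := Module.finrank ℚ (Rs X) with hr
  let b : Fin n := ⟨0, by omega⟩
  let S : Finset (Fin n) := Finset.univ \ insert b (Z0 X)
  have hS : n ≤ S.card + (4 * r + 3) := by
    have h1 := card_Z0 hX hn
    have h2 : (insert b (Z0 X)).card ≤ (Z0 X).card + 1 := Finset.card_insert_le _ _
    have h3 : S.card + (insert b (Z0 X)).card = n := by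
      have := Finset.card_sdiff_add_card_eq_card (Finset.subset_univ (insert b (Z0 X)))
      rw [Finset.card_univ, Fintype.card_fin] at this
      exact this
    omega
  have hSm : ∀ a ∈ S, a ≠ b ∧ a ∉ Z0 X := by
    intro a ha
    have h1 := (Finset.mem_sdiff.1 ha).2
    rw [Finset.mem_insert] at h1
    push Not at h1
    exact h1
  obtain ⟨x, hx⟩ := exists_choice S (fun a => bad X a b) (4 * r)
    (fun a ha => card_bad hX a b (hSm a ha).1) (by
      intro a _ i hi hi'
      rw [mem_bad] at hi hi'
      have h1 := disj hX hi.1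
      have h2 := hi'.1
      rw [fl_fl, h1] at h2
      norm_num at h2)
  set A := S.filter fun a => ∀ i ∈ bad X a b, x i.1 = !i.2 with hA
  have hAlt : A.card < 2 ^ (r + 2) := by
    by_contra hcon
    push Not at hcon
    obtain ⟨l, hl1, hl2, hl3⟩ := exists_chain (Rel X b) (r + 2) A (by
      intro a ha a' ha' hne
      have h1 := Finset.mem_filter.1 ha
      have h2 := Finset.mem_filter.1 ha'
      exact total hX b a a' (hSm a h1.1).1 (hSm a' h2.1).1 hne (hSm a h1.1).2 (hSm a' h2.1).2
        x h1.2 h2.2) hcon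
    have hget : ∀ i < r + 3, ∃ h : i < l.length, l.getD i b = l[i] := by
      intro i hi
      have : i < l.length := by omega
      exact ⟨this, List.getD_eq_getElem l b this⟩
    have h1 := chain_bound hX b (r + 1) (fun i => l.getD i b) (by
      intro i hi
      obtain ⟨h, he⟩ := hget i hi
      rw [he]
      exact (hSm _ (Finset.mem_filter.1 (hl3 _ (List.getElem_mem h))).1).1) (by
      intro i j hij hj
      obtain ⟨h, he⟩ := hget i (by omega)
      obtain ⟨h', he'⟩ := hget j hj
      rw [he, he']
      exact (List.pairwise_iff_getElem.1 hl2 i j h h' hij).1) (by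
      intro i j hij hj
      obtain ⟨h, he⟩ := hget i (by omega)
      obtain ⟨h', he'⟩ := hget j hj
      rw [he, he']
      exact (List.pairwise_iff_getElem.1 hl2 i j h h' hij).2)
    omega
  have h1 : (A.card + 1) * 2 ^ (4 * r) ≤ 2 ^ (r + 2) * 2 ^ (4 * r) :=
    Nat.mul_le_mul hAlt le_rfl
  have h2 : 2 ^ (r + 2) * 2 ^ (4 * r) = 2 ^ (5 * r + 2) := by
    rw [← pow_add]
    congr 1
    omega
  have h4 : 4 * r + 3 < 2 ^ (4 * r) := by
    obtain ⟨k, hk⟩ : ∃ k, r = k + 1 := ⟨r - 1, by omega⟩
    rw [hk]
    have h5 : ∀ k : ℕ, 4 * (k + 1) + 3 < 2 ^ (4 * (k + 1)) := by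
      intro k
      induction k with
      | zero => norm_num
      | succ k ih =>
        have h6 : 2 ^ (4 * (k + 1 + 1)) = 16 * 2 ^ (4 * (k + 1)) := by
          rw [show 4 * (k + 1 + 1) = 4 * (k + 1) + 4 by ring, pow_add]
          norm_num
          ring
        rw [h6]
        omega
    exact h5 k
  have hx' : S.card ≤ A.card * 2 ^ (4 * r) := hx
  have h6 : (A.card + 1) * 2 ^ (4 * r) = A.card * 2 ^ (4 * r) + 2 ^ (4 * r) := by ring
  omega

/-- For every `n ≥ 4` the addressing number of the triangular graph `T_n` is at least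
`n + (log₂ n - 7) / 5`, and at least `n`. -/
theorem result (n : ℕ) (hn : 4 ≤ n) :
    (n : ℝ) + max 0 ((Real.logb 2 n - 7) / 5) ≤ addressingNumber (triangular n) := by
  have hne : {N : ℕ | ∃ a : {s : Finset (Fin n) // s.card = 2} → Fin N → Option Bool,
      IsAddressing (triangular n) N a}.Nonempty := ⟨3 * n / 2, (ThreeHalves.result n).1⟩
  have key : ∀ N : ℕ, (∃ a : {s : Finset (Fin n) // s.card = 2} → Fin N → Option Bool,
      IsAddressing (triangular n) N a) → (n : ℝ) + max 0 ((Real.logb 2 n - 7) / 5) ≤ N := by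
    rintro N ⟨a, ha⟩
    obtain ⟨X, hX⟩ := good_of_addressing ha
    have h1 := dim_bound hX (by omega)
    have h2 := one_le_rank hX hn
    have h3 := main_bound hX hn
    set r := Module.finrank ℚ (Rs X) with hr
    have h1' : (r : ℝ) + n ≤ N + 1 := by exact_mod_cast h1
    have h2' : (1 : ℝ) ≤ r := by exact_mod_cast h2
    have hnpos : (0 : ℝ) < n := by
      have : 0 < n := by omega
      exact_mod_cast this
    have h4 : Real.logb 2 n ≤ (5 * r + 2 : ℕ) := by
      rw [Real.logb_le_iff_le_rpow (by norm_num) hnpos, Real.rpow_natCast]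
      exact_mod_cast h3.le
    push_cast at h4
    rcases max_cases 0 ((Real.logb 2 n - 7) / 5) with ⟨h5, _⟩ | ⟨h5, _⟩ <;> rw [h5] <;> linarith
  exact key _ (Nat.sInf_mem hne)

end Pool.Agent.Results.MP_cec33a_co.LogLowerBound
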