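import Pool.Agent.Lib.StarCo.Fin
import Pool.Agent.Results.MP_cec33a_co.LogLowerBound

/-!
# Addressings of the triangular graph with a coordinate for every star

Suppose that an addressing of `T_n` has, for every point `v`, a coordinate in which the symbol `0`
stands exactly on the edges at `v`. If `U` is a set of points such that every four points of `U`
span an even number of full triangles, then the length is at least `n + |U| / 2 - 2`.
-/

set_option autoImplicit false

namespace Pool.Agent.Results.MP_cec33a_co.StarCoordinates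

open Pool.Agent.Results.MP_cec33a_co.ThreeHalves (IsAddressing triangular Sep inter_pair_card)
open Pool.Agent.Lib.StarCo

/-- A set `t` of points is full if for no `v ∈ t` the edge `t \ {v}` has the symbol `1` in the
coordinate `i v` (used for sets of three points). -/
def Full {n N : ℕ} (w : {s : Finset (Fin n) // s.card = 2} → Fin N → Option Bool)
    (i : Fin n → Fin N) (t : Finset (Fin n)) : Prop :=
  ∀ v ∈ t, ∀ e : {s : Finset (Fin n) // s.card = 2}, e.1 = t.erase v → w e (i v) ≠ some true

lemma i_inj {n N : ℕ} (hn : 4 ≤ n) (w : {s : Finset (Fin n) // s.card = 2} → Fin N → Option Bool)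
    (i : Fin n → Fin N) (hi : ∀ v e, w e (i v) = some false ↔ v ∈ e.1) {y z : Fin n}
    (hyz : y ≠ z) : i y ≠ i z := by
  intro h
  obtain ⟨x, hx⟩ : ∃ x : Fin n, x ∉ ({y, z} : Finset (Fin n)) := by
    by_contra hcon
    push Not at hcon
    have h1 : (Finset.univ : Finset (Fin n)) ⊆ {y, z} := fun x _ => hcon x
    have h2 := Finset.card_le_card h1
    rw [Finset.card_univ, Fintype.card_fin, Finset.card_pair hyz] at h2
    omega
  simp only [Finset.mem_insert, Finset.mem_singleton, not_or] at hx
  have h1 := (hi y ⟨{y, x}, Finset.card_pair (Ne.symm hx.1)⟩).2 (by simp)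
  rw [h] at h1
  have h2 := (hi z _).1 h1
  simp only [Finset.mem_insert, Finset.mem_singleton] at h2
  rcases h2 with h2 | h2
  · exact hyz h2.symm
  · exact hx.2 h2.symm

/-- at most one vertex of a triangle is in the middle -/
lemma at_most {n N : ℕ} (hn : 4 ≤ n)
    (w : {s : Finset (Fin n) // s.card = 2} → Fin N → Option Bool)
    (hw : IsAddressing (triangular n) N w) (i : Fin n → Fin N)
    (hi : ∀ v e, w e (i v) = some false ↔ v ∈ e.1) {x y z : Fin n} (hxy : x ≠ y) (hxz : x ≠ z)
    (hyz : y ≠ z) (h1 : w ⟨{x, z}, Finset.card_pair hxz⟩ (i y) = some true)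
    (h2 : w ⟨{x, y}, Finset.card_pair hxy⟩ (i z) = some true) : False := by
  classical
  have h3 := hw ⟨{x, y}, Finset.card_pair hxy⟩ ⟨{x, z}, Finset.card_pair hxz⟩
  have h4 := Pool.Agent.Results.MP_cec33a_co.LogLowerBound.dist_add
    ⟨{x, y}, Finset.card_pair hxy⟩ ⟨{x, z}, Finset.card_pair hxz⟩
  have h5 : (({x, y} : Finset (Fin n)) ∩ {x, z}).card = 1 := by
    have : ({x, y} : Finset (Fin n)) ∩ {x, z} = {x} := by
      ext a
      simp only [Finset.mem_inter, Finset.mem_insert, Finset.mem_singleton]
      constructor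
      · rintro ⟨h | h, h' | h'⟩
        · exact h
        · exact h
        · exact h'
        · exact absurd (h.symm.trans h') hyz
      · intro h
        exact ⟨Or.inl h, Or.inl h⟩
    rw [this, Finset.card_singleton]
  have h6 : ({i y, i z} : Finset (Fin N)) ⊆ Finset.univ.filter fun j : Fin N =>
      Sep (w ⟨{x, y}, Finset.card_pair hxy⟩ j) (w ⟨{x, z}, Finset.card_pair hxz⟩ j) := by
    intro j hj
    simp only [Finset.mem_insert, Finset.mem_singleton] at hj
    simp only [Finset.mem_filter, Finset.mem_univ, true_and]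
    rcases hj with rfl | rfl
    · left
      exact ⟨(hi y _).2 (by simp), h1⟩
    · right
      exact ⟨h2, (hi z _).2 (by simp)⟩
  have h7 := Finset.card_le_card h6
  rw [Finset.card_pair (i_inj hn w i hi hyz)] at h7
  have h8 : (Finset.univ.filter fun j : Fin N =>
      Sep (w ⟨{x, y}, Finset.card_pair hxy⟩ j) (w ⟨{x, z}, Finset.card_pair hxz⟩ j)).card = 1 := by
    rw [← h3]
    simp only at h4
    omega
  omega

lemma tri {n N : ℕ} (hn : 4 ≤ n)
    (w : {s : Finset (Fin n) // s.card = 2} → Fin N → Option Bool)
    (hw : IsAddressing (triangular n) N w) (i : Fin n → Fin N)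
    (hi : ∀ v e, w e (i v) = some false ↔ v ∈ e.1) (T : Fin n → Ed n → ℕ)
    (hT : ∀ v e, T v e = if w e (i v) = some true then 1 else 0)
    (Fz : Finset (Fin n) → ZMod 2) (hFz : ∀ t, Full w i t → Fz t = 1)
    (hFz' : ∀ t, ¬ Full w i t → Fz t = 0)
    (x y z : Fin n) (hxy : x ≠ y) (hxz : x ≠ z) (hyz : y ≠ z) :
    (T x ⟨{y, z}, Finset.card_pair hyz⟩ + T y ⟨{x, z}, Finset.card_pair hxz⟩
      + T z ⟨{x, y}, Finset.card_pair hxy⟩ : ZMod 2) = 1 + Fz {x, y, z} := by
  have hT1 : ∀ v (e : Ed n), T v e = 0 ∨ T v e = 1 := by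
    intro v e
    rw [hT]
    split_ifs
    · exact Or.inr rfl
    · exact Or.inl rfl
  have hTt : ∀ v (e : Ed n), T v e = 1 → w e (i v) = some true := by
    intro v e h
    by_contra h'
    rw [hT, if_neg h'] at h
    omega
  have m1 : ¬ (T y ⟨{x, z}, Finset.card_pair hxz⟩ = 1 ∧ T z ⟨{x, y}, Finset.card_pair hxy⟩ = 1) :=
    fun h => at_most hn w hw i hi hxy hxz hyz (hTt _ _ h.1) (hTt _ _ h.2)
  have m2 : ¬ (T x ⟨{y, z}, Finset.card_pair hyz⟩ = 1 ∧
      T z ⟨{x, y}, Finset.card_pair hxy⟩ = 1) := by
    intro h
    refine at_most hn w hw i hi (x := y) (y := x) (z := z) hxy.symm hyz hxz (hTt _ _ h.1) ?_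
    have := hTt _ _ h.2
    convert this using 3
    exact Finset.pair_comm y x
  have m3 : ¬ (T x ⟨{y, z}, Finset.card_pair hyz⟩ = 1 ∧
      T y ⟨{x, z}, Finset.card_pair hxz⟩ = 1) := by
    intro h
    refine at_most hn w hw i hi (x := z) (y := x) (z := y) hxz.symm hyz.symm hxy ?_ ?_
    · have := hTt _ _ h.1
      convert this using 3
      exact Finset.pair_comm z y
    · have := hTt _ _ h.2
      convert this using 3
      exact Finset.pair_comm z x
  have er1 : ({x, y, z} : Finset (Fin n)).erase x = {y, z} := by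
    ext a
    simp only [Finset.mem_erase, Finset.mem_insert, Finset.mem_singleton]
    constructor
    · rintro ⟨h1, h2 | h2 | h2⟩
      · exact absurd h2 h1
      · exact Or.inl h2
      · exact Or.inr h2
    · rintro (h | h)
      · exact ⟨fun h' => hxy (h'.symm.trans h), Or.inr (Or.inl h)⟩
      · exact ⟨fun h' => hxz (h'.symm.trans h), Or.inr (Or.inr h)⟩
  have er2 : ({x, y, z} : Finset (Fin n)).erase y = {x, z} := by
    ext a
    simp only [Finset.mem_erase, Finset.mem_insert, Finset.mem_singleton]
    constructor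
    · rintro ⟨h1, h2 | h2 | h2⟩
      · exact Or.inl h2
      · exact absurd h2 h1
      · exact Or.inr h2
    · rintro (h | h)
      · exact ⟨fun h' => hxy (h.symm.trans h'), Or.inl h⟩
      · exact ⟨fun h' => hyz (h'.symm.trans h), Or.inr (Or.inr h)⟩
  have er3 : ({x, y, z} : Finset (Fin n)).erase z = {x, y} := by
    ext a
    simp only [Finset.mem_erase, Finset.mem_insert, Finset.mem_singleton]
    constructor
    · rintro ⟨h1, h2 | h2 | h2⟩
      · exact Or.inl h2
      · exact Or.inr h2
      · exact absurd h2 h1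
    · rintro (h | h)
      · exact ⟨fun h' => hxz (h.symm.trans h'), Or.inl h⟩
      · exact ⟨fun h' => hyz (h.symm.trans h'), Or.inr (Or.inl h)⟩
  have hfull : Full w i {x, y, z} ↔ (T x ⟨{y, z}, Finset.card_pair hyz⟩ = 0 ∧
      T y ⟨{x, z}, Finset.card_pair hxz⟩ = 0 ∧ T z ⟨{x, y}, Finset.card_pair hxy⟩ = 0) := by
    constructor
    · intro h
      refine ⟨?_, ?_, ?_⟩
      · rcases hT1 x ⟨{y, z}, Finset.card_pair hyz⟩ with h0 | h0
        · exact h0
        · exact absurd (hTt _ _ h0) (h x (by simp) _ er1.symm)
      · rcases hT1 y ⟨{x, z}, Finset.card_pair hxz⟩ with h0 | h0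
        · exact h0
        · exact absurd (hTt _ _ h0) (h y (by simp) _ er2.symm)
      · rcases hT1 z ⟨{x, y}, Finset.card_pair hxy⟩ with h0 | h0
        · exact h0
        · exact absurd (hTt _ _ h0) (h z (by simp) _ er3.symm)
    · rintro ⟨h1, h2, h3⟩ v hv e he hwe
      have key : T v e = 1 := by rw [hT, if_pos hwe]
      simp only [Finset.mem_insert, Finset.mem_singleton] at hv
      rcases hv with rfl | rfl | rfl
      · rw [er1] at he
        have : e = ⟨{y, z}, Finset.card_pair hyz⟩ := Subtype.ext he
        rw [this] at key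
        omega
      · rw [er2] at he
        have : e = ⟨{x, z}, Finset.card_pair hxz⟩ := Subtype.ext he
        rw [this] at key
        omega
      · rw [er3] at he
        have : e = ⟨{x, y}, Finset.card_pair hxy⟩ := Subtype.ext he
        rw [this] at key
        omega
  rcases hT1 x ⟨{y, z}, Finset.card_pair hyz⟩ with a1 | a1 <;>
    rcases hT1 y ⟨{x, z}, Finset.card_pair hxz⟩ with a2 | a2 <;>
    rcases hT1 z ⟨{x, y}, Finset.card_pair hxy⟩ with a3 | a3
  · have : Fz {x, y, z} = 1 := by
      exact hFz _ (hfull.2 ⟨a1, a2, a3⟩)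
    rw [a1, a2, a3, this]
    decide
  · have : Fz {x, y, z} = 0 := by
      exact hFz' _ (fun h => by have := hfull.1 h; omega)
    rw [a1, a2, a3, this]
    decide
  · have : Fz {x, y, z} = 0 := by
      exact hFz' _ (fun h => by have := hfull.1 h; omega)
    rw [a1, a2, a3, this]
    decide
  · exact absurd ⟨a2, a3⟩ m1
  · have : Fz {x, y, z} = 0 := by
      exact hFz' _ (fun h => by have := hfull.1 h; omega)
    rw [a1, a2, a3, this]
    decide
  · exact absurd ⟨a1, a3⟩ m2
  · exact absurd ⟨a1, a2⟩ m3
  · exact absurd ⟨a2, a3⟩ m1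

open Classical in
lemma four {n N : ℕ} (w : {s : Finset (Fin n) // s.card = 2} → Fin N → Option Bool)
    (i : Fin n → Fin N) (Fz : Finset (Fin n) → ZMod 2)
    (hFz : ∀ t, Fz t = if Full w i t then 1 else 0) (x y z t : Fin n)
    (hF : Even ((({x, y, z, t} : Finset (Fin n)).powersetCard 3).filter (Full w i)).card)
    (hxy : x ≠ y) (hxz : x ≠ z) (hxt : x ≠ t) (hyz : y ≠ z) (hyt : y ≠ t) (hzt : z ≠ t) :
    Fz {x, y, z} + Fz {x, y, t} + Fz {x, z, t} + Fz {y, z, t} = 0 := by
  have hq : ({x, y, z, t} : Finset (Fin n)).card = 4 := by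
    rw [Finset.card_insert_of_notMem (by simp [hxy, hxz, hxt]),
      Finset.card_insert_of_notMem (by simp [hyz, hyt]), Finset.card_pair hzt]
  have h2 : ((((({x, y, z, t} : Finset (Fin n)).powersetCard 3).filter (Full w i)).card : ℕ) :
      ZMod 2) = 0 := by
    exact (ZMod.natCast_eq_zero_iff_even).2 hF
  have h3 : ((((({x, y, z, t} : Finset (Fin n)).powersetCard 3).filter (Full w i)).card : ℕ) :
      ZMod 2) = ∑ s ∈ ({x, y, z, t} : Finset (Fin n)).powersetCard 3, Fz s := by
    rw [Finset.card_filter]
    push_cast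
    exact Finset.sum_congr rfl fun s _ => (hFz s).symm
  have h4 : ({x, y, z, t} : Finset (Fin n)).powersetCard 3
      = ({x, y, z, t} : Finset (Fin n)).image (fun v => ({x, y, z, t} : Finset (Fin n)).erase v) := by
    generalize hqq : ({x, y, z, t} : Finset (Fin n)) = q at hq
    ext s
    rw [Finset.mem_powersetCard, Finset.mem_image]
    constructor
    · rintro ⟨hs, hc⟩
      have : (q \ s).card = 1 := by
        rw [Finset.card_sdiff_of_subset hs]
        omega
      obtain ⟨v, hv⟩ := Finset.card_eq_one.1 this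
      refine ⟨v, ?_, ?_⟩
      · have : v ∈ q \ s := by rw [hv]; exact Finset.mem_singleton_self v
        exact (Finset.mem_sdiff.1 this).1
      · rw [Finset.erase_eq, ← hv]
        exact Finset.sdiff_sdiff_eq_self hs
    · rintro ⟨v, hv, rfl⟩
      exact ⟨Finset.erase_subset _ _, by rw [Finset.card_erase_of_mem hv, hq]⟩
  rw [h3, h4, Finset.sum_image (fun a ha b hb hab => Finset.erase_injOn _ ha hb hab)] at h2
  rw [Finset.sum_insert (by simp [hxy, hxz, hxt]), Finset.sum_insert (by simp [hyz, hyt]),
    Finset.sum_pair hzt] at h2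
  have e1 : ({x, y, z, t} : Finset (Fin n)).erase x = {y, z, t} := by
    rw [Finset.erase_insert (by simp [hxy, hxz, hxt])]
  have e2 : ({x, y, z, t} : Finset (Fin n)).erase y = {x, z, t} := by
    rw [Finset.erase_insert_of_ne hxy, Finset.erase_insert (by simp [hyz, hyt])]
  have e3 : ({x, y, z, t} : Finset (Fin n)).erase z = {x, y, t} := by
    rw [Finset.erase_insert_of_ne hxz, Finset.erase_insert_of_ne hyz,
      Finset.erase_insert (by simp [hzt])]
  have e4 : ({x, y, z, t} : Finset (Fin n)).erase t = {x, y, z} := by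
    rw [Finset.erase_insert_of_ne hxt, Finset.erase_insert_of_ne hyt,
      Finset.erase_insert_of_ne hzt]
    congr 2
    rw [Finset.erase_singleton]
    rfl
  rw [e1, e2, e3, e4] at h2
  rw [← h2]
  ring

/-- the edge of `Fin n` given by an edge of `Fin u` -/
def lft {u n : ℕ} (g : Fin u ↪ Fin n) (e : Ed u) : Ed n :=
  ⟨e.1.map g, by rw [Finset.card_map]; exact e.2⟩

open Classical in
/-- Let `w` be an addressing of `T_n` of length `N` in which, for every point `v`, the coordinate
`i v` has the symbol `0` exactly on the edges at `v`. If every four points of `U` span an even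
number of full triangles then `N ≥ n + |U| / 2 - 2`. -/
theorem result (n N : ℕ) (hn : 4 ≤ n)
    (w : {s : Finset (Fin n) // s.card = 2} → Fin N → Option Bool)
    (hw : IsAddressing (triangular n) N w) (i : Fin n → Fin N)
    (hi : ∀ v e, w e (i v) = some false ↔ v ∈ e.1) (U : Finset (Fin n))
    (hF : ∀ q ⊆ U, q.card = 4 → Even ((q.powersetCard 3).filter (Full w i)).card) :
    2 * n + U.card ≤ 2 * N + 4 := by
  obtain ⟨hnN, P, Q, hPQ⟩ := setup hn w hw i hi
  let T : Fin n → Ed n → ℕ := fun v e => if w e (i v) = some true then 1 else 0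
  let Fz : Finset (Fin n) → ZMod 2 := fun t => if Full w i t then 1 else 0
  have hT0 : ∀ v (e : Ed n), v ∈ e.1 → T v e = 0 := by
    intro v e hve
    have := (hi v e).2 hve
    simp only [T, this]
    simp
  have tri' := tri hn w hw i hi T (fun _ _ => rfl) Fz (fun t ht => if_pos ht)
    (fun t ht => if_neg ht)
  by_cases hu : U.card < 3
  · omega
  push Not at hu
  let g : Fin U.card ↪ Fin n := (U.orderEmbOfFin rfl).toEmbedding
  have hg : ∀ a, g a ∈ U := fun a => Finset.orderEmbOfFin_mem U rfl a
  have hgne : ∀ {a b}, a ≠ b → g a ≠ g b := fun h h' => h (g.injective h')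
  let T' : Fin U.card → Ed U.card → ℕ := fun v e => T (g v) (lft g e)
  have hT' : ∀ v x y (hxy : x ≠ y), T' v ⟨{x, y}, Finset.card_pair hxy⟩
      = T (g v) ⟨{g x, g y}, Finset.card_pair (hgne hxy)⟩ := by
    intro v x y hxy
    have : lft g ⟨{x, y}, Finset.card_pair hxy⟩ = ⟨{g x, g y}, Finset.card_pair (hgne hxy)⟩ := by
      apply Subtype.ext
      show ({x, y} : Finset (Fin U.card)).map g = {g x, g y}
      rw [Finset.map_insert, Finset.map_singleton]
    show T (g v) (lft g _) = _
    rw [this]
  -- the function of two points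
  let o : Fin U.card := ⟨0, by omega⟩
  let φ : Fin U.card → Fin U.card → ZMod 2 := fun a b =>
    if a = o ∨ b = o then 1 else 1 + Fz {g o, g a, g b}
  have hφ : ∀ a b, φ a b = φ b a := by
    intro a b
    simp only [φ]
    rw [Finset.pair_comm (g a) (g b)]
    by_cases h1 : a = o <;> by_cases h2 : b = o <;> simp [h1, h2]
  have h3 : ∀ x y z : Fin U.card, ∀ (hxy : x ≠ y) (hxz : x ≠ z) (hyz : y ≠ z),
      (T' x ⟨{y, z}, Finset.card_pair hyz⟩ + T' y ⟨{x, z}, Finset.card_pair hxz⟩
        + T' z ⟨{x, y}, Finset.card_pair hxy⟩ : ZMod 2) = φ x y + φ x z + φ y z := by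
    intro x y z hxy hxz hyz
    rw [hT' x y z hyz, hT' y x z hxz, hT' z x y hxy,
      tri' (g x) (g y) (g z) (hgne hxy) (hgne hxz) (hgne hyz)]
    have two : (1 : ZMod 2) + 1 = 0 := by decide
    by_cases hx : x = o
    · have hy : y ≠ o := fun h => hxy (hx.trans h.symm)
      have hz : z ≠ o := fun h => hxz (hx.trans h.symm)
      simp only [φ, hx, true_or, if_true, hy, hz, or_self, if_false]
      rw [two, zero_add]
    · by_cases hy : y = o
      · have hz : z ≠ o := fun h => hyz (hy.trans h.symm)
        have : ({g x, g o, g z} : Finset (Fin n)) = {g o, g x, g z} :=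
          Finset.insert_comm (g x) (g o) {g z}
        simp only [φ, hx, hy, or_true, true_or, if_true, hz, or_self, if_false]
        rw [this]
        linear_combination -two
      · by_cases hz : z = o
        · have : ({g x, g y, g o} : Finset (Fin n)) = {g o, g x, g y} := by
            rw [Finset.pair_comm (g y) (g o), Finset.insert_comm]
          simp only [φ, hx, hy, hz, or_true, if_true, or_self, if_false]
          rw [this]
          linear_combination -two
        · simp only [φ, hx, hy, hz, or_self, if_false]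
          have hox := hgne (Ne.symm hx)
          have hoy := hgne (Ne.symm hy)
          have hoz := hgne (Ne.symm hz)
          have hxy' := hgne hxy
          have hxz' := hgne hxz
          have hyz' := hgne hyz
          have h4 := four w i Fz (fun _ => rfl) (g o) (g x) (g y) (g z)
            (hF _ (by
              intro a ha
              simp only [Finset.mem_insert, Finset.mem_singleton] at ha
              rcases ha with rfl | rfl | rfl | rfl <;> exact hg _) (by
              rw [Finset.card_insert_of_notMem (by simp [hox, hoy, hoz]),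
                Finset.card_insert_of_notMem (by simp [hxy', hxz']), Finset.card_pair hyz']))
            hox hoy hoz hxy' hxz' hyz'
          have h5 : ∀ t : ZMod 2, t + t = 0 := by decide
          have h6 := h5 (Fz {g x, g y, g z})
          linear_combination h6 - h4 - two
  have hb := bound (n := U.card) (r := N - n) hu T' φ hφ (by
    intro v e hve
    exact hT0 _ _ ((Finset.mem_map' g).2 hve)) h3 (fun j e => P j (lft g e))
    (fun j e => Q j (lft g e)) (by
    intro e f
    have h1 := hPQ (lft g e) (lft g f)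
    have h2 : ((lft g e).1 ∩ (lft g f).1).card = (e.1 ∩ f.1).card := by
      show (e.1.map g ∩ f.1.map g).card = _
      rw [← Finset.map_inter, Finset.card_map]
    rw [h2] at h1
    rw [← h1]
    congr 1
    have hz : ∀ v ∉ Finset.univ.map g,
        ((if v ∈ (lft g e).1 then (1 : ℚ) else 0)
          * (if w (lft g f) (i v) = some true then 1 else 0)
        + (if v ∈ (lft g f).1 then (1 : ℚ) else 0)
          * (if w (lft g e) (i v) = some true then 1 else 0)) = 0 := by
      intro v hv
      have h3 : v ∉ (lft g e).1 := by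
        intro h
        obtain ⟨a, -, ha⟩ := Finset.mem_map.1 h
        exact hv (Finset.mem_map.2 ⟨a, Finset.mem_univ a, ha⟩)
      have h4 : v ∉ (lft g f).1 := by
        intro h
        obtain ⟨a, -, ha⟩ := Finset.mem_map.1 h
        exact hv (Finset.mem_map.2 ⟨a, Finset.mem_univ a, ha⟩)
      rw [if_neg h3, if_neg h4]
      ring
    rw [← Finset.sum_subset (Finset.subset_univ (Finset.univ.map g)) (fun v _ hv => hz v hv),
      Finset.sum_map]
    refine Finset.sum_congr rfl fun v _ => ?_
    have h5 : (g v ∈ (lft g e).1) = (v ∈ e.1) := propext (Finset.mem_map' g)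
    have h6 : (g v ∈ (lft g f).1) = (v ∈ f.1) := propext (Finset.mem_map' g)
    simp only [h5, h6, T', T]
    push_cast
    rfl)
  omega

end Pool.Agent.Results.MP_cec33a_co.StarCoordinates
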